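import Mathlib

/-!
The size of the weights at one place.
-/

set_option autoImplicit false

namespace Run7.h343.NV

/-- the auxiliary function -/
noncomputable def gw (m : ℕ) : ℝ :=
  Real.sqrt 2 ^ m * Real.Gamma ((m : ℝ) / 2 + 1) * Real.exp ((m : ℝ) / 2) / Real.sqrt m ^ m

lemma gw_zero : gw 0 = 1 := by
  unfold gw
  simp

lemma gw_one : gw 1 ≤ 3 := by
  unfold gw
  have h1 : Real.Gamma (((1 : ℕ) : ℝ) / 2 + 1) = 1 / 2 * Real.sqrt Real.pi := by
    rw [Nat.cast_one, Real.Gamma_add_one (by norm_num), Real.Gamma_one_half_eq]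
  rw [h1]
  have h2 : Real.sqrt 2 ≤ 3 / 2 := by
    rw [Real.sqrt_le_left (by norm_num)]
    norm_num
  have h3 : Real.sqrt Real.pi ≤ 9 / 5 := by
    rw [Real.sqrt_le_left (by norm_num)]
    have := Real.pi_lt_d2
    linarith
  have h4 : Real.exp (((1 : ℕ) : ℝ) / 2) ≤ 17 / 10 := by
    rw [Nat.cast_one]
    have h5 : Real.exp (1 / 2) ^ 2 = Real.exp 1 := by
      rw [← Real.exp_nat_mul]
      congr 1
      push_cast
      ring
    have h6 := Real.exp_one_lt_d9
    have h7 := Real.exp_pos (1 / 2)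
    by_contra h
    push Not at h
    nlinarith
  have h5 := Real.sqrt_nonneg Real.pi
  simp only [Nat.cast_one, Real.sqrt_one, pow_one, div_one] at h4 ⊢
  calc Real.sqrt 2 * (1 / 2 * Real.sqrt Real.pi) * Real.exp (1 / 2) ≤ 3 / 2 * (1 / 2 * (9 / 5)) * (17 / 10) := by
        gcongr
    _ ≤ 3 := by norm_num

lemma gw_step {m : ℕ} (hm : 0 < m) : gw (m + 2) * m ≤ gw m * (m + 2) := by
  have hm0 : (0 : ℝ) < m := by exact_mod_cast hm
  obtain ⟨x, hx⟩ : ∃ x : ℝ, x = m := ⟨_, rfl⟩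
  have hx0 : 0 < x := by rw [hx]; exact hm0
  unfold gw
  have e1 : ((m + 2 : ℕ) : ℝ) = x + 2 := by rw [hx]; push_cast; ring
  rw [e1, ← hx]
  have hG : Real.Gamma ((x + 2) / 2 + 1) = (x / 2 + 1) * Real.Gamma (x / 2 + 1) := by
    have : (x + 2) / 2 + 1 = (x / 2 + 1) + 1 := by ring
    rw [this, Real.Gamma_add_one (by positivity)]
  have hE : Real.exp ((x + 2) / 2) = Real.exp (x / 2) * Real.exp 1 := by
    rw [← Real.exp_add]
    congr 1
    ring
  have h2 : Real.sqrt 2 ^ (m + 2) = 2 * Real.sqrt 2 ^ m := by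
    rw [pow_add, Real.sq_sqrt (by norm_num)]
    ring
  have h3 : Real.sqrt (x + 2) ^ (m + 2) = (x + 2) * Real.sqrt (x + 2) ^ m := by
    rw [pow_add, Real.sq_sqrt (by positivity)]
    ring
  rw [hG, hE, h2, h3]
  have hs1 : 0 < Real.sqrt x := Real.sqrt_pos.2 hx0
  have hs2 : 0 < Real.sqrt (x + 2) := Real.sqrt_pos.2 (by positivity)
  have hΓ := Real.Gamma_pos_of_pos (by positivity : 0 < x / 2 + 1)
  -- the key inequality
  have key : Real.exp 1 * x * Real.sqrt x ^ m ≤ (x + 2) * Real.sqrt (x + 2) ^ m := by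
    obtain ⟨L, hL⟩ : ∃ L, L = Real.log ((x + 2) / x) := ⟨_, rfl⟩
    have hL1 : 2 / (x + 2) ≤ L := by
      rw [hL]
      have h5 := Real.one_sub_inv_le_log_of_pos (by positivity : 0 < (x + 2) / x)
      refine le_trans (le_of_eq ?_) h5
      field_simp
      ring
    have hL2 : Real.exp L = (x + 2) / x := by rw [hL, Real.exp_log (by positivity)]
    have h6 : Real.sqrt (x + 2) ^ m = Real.sqrt x ^ m * Real.exp (x / 2 * L) := by
      have h7 : Real.sqrt (x + 2) = Real.sqrt x * Real.exp (1 / 2 * L) := by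
        have h8 : Real.exp (1 / 2 * L) = Real.sqrt ((x + 2) / x) := by
          rw [Real.sqrt_eq_rpow, Real.rpow_def_of_pos (by positivity), ← hL]
          congr 1
          ring
        rw [h8, ← Real.sqrt_mul hx0.le]
        congr 1
        field_simp
      rw [h7, mul_pow, ← Real.exp_nat_mul]
      congr 2
      rw [hx]
      ring
    have h9 : Real.exp 1 * x ≤ (x + 2) * Real.exp (x / 2 * L) := by
      have h10 : (x + 2) = x * Real.exp L := by rw [hL2]; field_simp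
      rw [h10, mul_assoc, ← Real.exp_add, mul_comm]
      refine mul_le_mul_of_nonneg_left (Real.exp_le_exp.2 ?_) hx0.le
      have h11 : (x / 2 + 1) * (2 / (x + 2)) = 1 := by field_simp
      have h12 := mul_le_mul_of_nonneg_left hL1 (by positivity : 0 ≤ x / 2 + 1)
      rw [h11] at h12
      linarith
    rw [h6]
    calc Real.exp 1 * x * Real.sqrt x ^ m ≤ ((x + 2) * Real.exp (x / 2 * L)) * Real.sqrt x ^ m :=
          mul_le_mul_of_nonneg_right h9 (by positivity)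
      _ = _ := by ring
  rw [div_mul_eq_mul_div, div_mul_eq_mul_div, div_le_div_iff₀ (by positivity) (by positivity)]
  obtain ⟨c, hc⟩ : ∃ c, c = Real.sqrt 2 ^ m * Real.Gamma (x / 2 + 1) * Real.exp (x / 2) * (x + 2) := ⟨_, rfl⟩
  have hc0 : 0 ≤ c := by rw [hc]; positivity
  have h13 := mul_le_mul_of_nonneg_left key hc0
  calc _ = c * (Real.exp 1 * x * Real.sqrt x ^ m) := by rw [hc]; ring
    _ ≤ c * ((x + 2) * Real.sqrt (x + 2) ^ m) := h13
    _ = _ := by rw [hc]

lemma gw_le : ∀ m : ℕ, gw m ≤ 3 * (1 + m) := by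
  have key : ∀ m : ℕ, 0 < m → gw m ≤ 3 * m := by
    intro m
    induction m using Nat.strong_induction_on with
    | _ m ih =>
      intro hm
      rcases Nat.lt_or_ge 2 m with h | h
      · obtain ⟨k, rfl⟩ : ∃ k, m = k + 2 := ⟨m - 2, by omega⟩
        have hk : 0 < k := by omega
        have h1 := ih k (by omega) hk
        have h2 := gw_step hk
        have hk0 : (0 : ℝ) < k := by exact_mod_cast hk
        have h3 : gw (k + 2) * k ≤ 3 * k * (k + 2) := h2.trans (mul_le_mul_of_nonneg_right h1 (by positivity))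
        push_cast
        have h4 : gw (k + 2) * k ≤ (3 * (k + 2)) * k := by linarith
        exact le_of_mul_le_mul_right h4 hk0
      · have h3 : m = 1 ∨ m = 2 := by omega
        rcases h3 with rfl | rfl
        · have := gw_one
          push_cast
          linarith
        · unfold gw
          have h5 : Real.Gamma (((2 : ℕ) : ℝ) / 2 + 1) = 1 := by
            have : ((2 : ℕ) : ℝ) / 2 + 1 = 1 + 1 := by norm_num
            rw [this, Real.Gamma_add_one one_ne_zero, Real.Gamma_one, mul_one]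
          have h6 : Real.exp (((2 : ℕ) : ℝ) / 2) ≤ 3 := by
            have : ((2 : ℕ) : ℝ) / 2 = 1 := by norm_num
            rw [this]
            linarith [Real.exp_one_lt_d9]
          have h7 : Real.sqrt 2 ^ 2 = 2 := Real.sq_sqrt (by norm_num)
          have h8 : Real.sqrt ((2 : ℕ) : ℝ) ^ 2 = 2 := by
            rw [Nat.cast_ofNat]
            exact h7
          rw [h5, h7, h8]
          push_cast at h6 ⊢
          linarith
  intro m
  rcases Nat.eq_zero_or_pos m with rfl | hm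
  · rw [gw_zero]
    norm_num
  · have := key m hm
    linarith

lemma ratio_le (m : ℕ) : Real.Gamma (((m : ℝ) + 1) / 2) ≤ (1 + m) * Real.Gamma ((1 : ℝ) / 4 + m / 2) := by
  obtain ⟨x, hx⟩ : ∃ x : ℝ, x = 1 / 4 + m / 2 := ⟨_, rfl⟩
  have hx0 : 0 < x := by rw [hx]; positivity
  have h1 := Real.Gamma_mul_add_mul_le_rpow_Gamma_mul_rpow_Gamma hx0 (by positivity : 0 < x + 1)
    (by norm_num : (0 : ℝ) < 3 / 4) (by norm_num : (0 : ℝ) < 1 / 4) (by norm_num)
  have e1 : 3 / 4 * x + 1 / 4 * (x + 1) = ((m : ℝ) + 1) / 2 := by rw [hx]; ring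
  have hG := Real.Gamma_pos_of_pos hx0
  rw [e1, Real.Gamma_add_one hx0.ne', Real.mul_rpow hx0.le hG.le, mul_left_comm, ← Real.rpow_add hG] at h1
  norm_num at h1
  rw [← hx]
  refine h1.trans (mul_le_mul_of_nonneg_right ?_ hG.le)
  have h2 : x ≤ 1 + m := by
    rw [hx]
    have : (0 : ℝ) ≤ m := Nat.cast_nonneg _
    linarith
  calc x ^ (1 / 4 : ℝ) ≤ (1 + m : ℝ) ^ (1 / 4 : ℝ) := Real.rpow_le_rpow hx0.le h2 (by norm_num)
    _ ≤ (1 + m : ℝ) ^ (1 : ℝ) := by
        refine Real.rpow_le_rpow_of_exponent_le ?_ (by norm_num)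
        have : (0 : ℝ) ≤ m := Nat.cast_nonneg _
        linarith
    _ = _ := Real.rpow_one _

/-- the weight at one place -/
noncomputable def Qw (j m : ℕ) : ℝ :=
  ((m.factorial : ℝ) * Real.exp ((m : ℝ) / 2) / (2 * Real.pi * Real.sqrt (m * j / (2 * Real.pi))) ^ m) *
    Real.sqrt j ^ m * (Real.sqrt j ^ ((j : ℝ) / 2) * (Real.pi ^ ((j : ℝ) / 4 + (m : ℝ) / 2) *
      (Real.Gamma ((j : ℝ) / 4 + (m : ℝ) / 2))⁻¹))

theorem Qw_le {j : ℕ} (hj : j = 1 ∨ j = 2) (m : ℕ) : Qw j m ≤ 9 * (1 + m) ^ 2 := by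
  have hπ := Real.pi_pos
  have hm0 : (0 : ℝ) ≤ m := Nat.cast_nonneg _
  have hj0 : (0 : ℝ) < j := by rcases hj with rfl | rfl <;> norm_num
  have hsj : 0 < Real.sqrt (j : ℝ) := Real.sqrt_pos.2 hj0
  have hsπ : 0 < Real.sqrt Real.pi := Real.sqrt_pos.2 hπ
  have hs2 : 0 < Real.sqrt 2 := Real.sqrt_pos.2 (by norm_num)
  have e1 : 2 * Real.pi * Real.sqrt (m * j / (2 * Real.pi)) = Real.sqrt 2 * Real.sqrt Real.pi * Real.sqrt m * Real.sqrt j := by
    have h1 : 2 * Real.pi = Real.sqrt ((2 * Real.pi) ^ 2) := (Real.sqrt_sq (by positivity)).symm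
    nth_rewrite 1 [h1]
    rw [← Real.sqrt_mul (by positivity), ← Real.sqrt_mul (by norm_num), ← Real.sqrt_mul (by positivity),
      ← Real.sqrt_mul (by positivity)]
    congr 1
    field_simp
  have e2 : Real.pi ^ ((j : ℝ) / 4 + (m : ℝ) / 2) = Real.pi ^ ((j : ℝ) / 4) * Real.sqrt Real.pi ^ m := by
    rw [Real.rpow_add hπ]
    congr 1
    rw [Real.sqrt_eq_rpow, ← Real.rpow_natCast, ← Real.rpow_mul hπ.le]
    congr 1
    ring
  have e3 : (m.factorial : ℝ) = Real.Gamma (((m : ℝ) + 1) / 2) * Real.Gamma ((m : ℝ) / 2 + 1) * 2 ^ m / Real.sqrt Real.pi := by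
    have h1 := Real.Gamma_mul_Gamma_add_half (((m : ℝ) + 1) / 2)
    have h2 : ((m : ℝ) + 1) / 2 + 1 / 2 = (m : ℝ) / 2 + 1 := by ring
    have h3 : 2 * (((m : ℝ) + 1) / 2) = m + 1 := by ring
    rw [h2, h3, Real.Gamma_nat_eq_factorial] at h1
    have h4 : (2 : ℝ) ^ (1 - ((m : ℝ) + 1)) = (2 ^ m)⁻¹ := by
      have : (1 - ((m : ℝ) + 1)) = -(m : ℝ) := by ring
      rw [this, Real.rpow_neg (by norm_num), Real.rpow_natCast]
    rw [h4] at h1
    rw [h1]
    field_simp
  obtain ⟨ra, hra⟩ : ∃ ra, ra = Real.Gamma (((m : ℝ) + 1) / 2) * (Real.Gamma ((j : ℝ) / 4 + (m : ℝ) / 2))⁻¹ := ⟨_, rfl⟩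
  have hΓ : 0 < Real.Gamma ((j : ℝ) / 4 + (m : ℝ) / 2) := Real.Gamma_pos_of_pos (by positivity)
  have hra1 : ra ≤ 1 + m := by
    rw [hra, ← div_eq_mul_inv, div_le_iff₀ hΓ]
    rcases hj with rfl | rfl
    · rw [Nat.cast_one]
      exact ratio_le m
    · have : ((2 : ℕ) : ℝ) / 4 + (m : ℝ) / 2 = ((m : ℝ) + 1) / 2 := by push_cast; ring
      rw [this] at hΓ ⊢
      nlinarith
  have hra0 : 0 ≤ ra := by
    rw [hra]
    have := Real.Gamma_pos_of_pos (by positivity : 0 < ((m : ℝ) + 1) / 2)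
    positivity
  obtain ⟨cj, hcj⟩ : ∃ cj, cj = Real.sqrt (j : ℝ) ^ ((j : ℝ) / 2) * Real.pi ^ ((j : ℝ) / 4) / Real.sqrt Real.pi := ⟨_, rfl⟩
  have hcj1 : cj ≤ 3 := by
    rw [hcj, div_le_iff₀ hsπ]
    rcases hj with rfl | rfl
    · rw [Nat.cast_one, Real.sqrt_one, Real.one_rpow, one_mul]
      have h1 : Real.pi ^ ((1 : ℝ) / 4) ≤ Real.pi ^ ((1 : ℝ) / 2) :=
        Real.rpow_le_rpow_of_exponent_le (by linarith [Real.pi_gt_three]) (by norm_num)
      rw [← Real.sqrt_eq_rpow] at h1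
      linarith
    · have h1 : (((2 : ℕ) : ℝ) / 2) = 1 := by norm_num
      have h2 : (((2 : ℕ) : ℝ) / 4) = 1 / 2 := by norm_num
      rw [h1, h2, Real.rpow_one, ← Real.sqrt_eq_rpow]
      refine mul_le_mul_of_nonneg_right ?_ hsπ.le
      rw [Real.sqrt_le_left (by norm_num)]
      norm_num
  have hcj0 : 0 ≤ cj := by rw [hcj]; positivity
  have hg := gw_le m
  have hg0 : 0 ≤ gw m := by
    unfold gw
    have := Real.Gamma_pos_of_pos (by positivity : 0 < (m : ℝ) / 2 + 1)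
    positivity
  have key : Qw j m = ra * gw m * cj := by
    unfold Qw gw
    rw [e1, e2, e3, hra, hcj, mul_pow, mul_pow, mul_pow]
    have h2 : (2 : ℝ) ^ m = Real.sqrt 2 ^ m * Real.sqrt 2 ^ m := by
      rw [← mul_pow, Real.mul_self_sqrt (by norm_num)]
    rw [h2]
    have hsm : Real.sqrt (m : ℝ) ^ m ≠ 0 := by
      rcases Nat.eq_zero_or_pos m with rfl | hm
      · simp
      · have : (0 : ℝ) < m := by exact_mod_cast hm
        exact (pow_pos (Real.sqrt_pos.2 this) m).ne'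
    have h3 : Real.sqrt 2 ^ m ≠ 0 := by positivity
    have h4 : Real.sqrt Real.pi ^ m ≠ 0 := by positivity
    have h5 : Real.sqrt (j : ℝ) ^ m ≠ 0 := by positivity
    field_simp
  rw [key]
  calc ra * gw m * cj ≤ (1 + m) * (3 * (1 + m)) * 3 := by gcongr
    _ = _ := by ring

end Run7.h343.NV
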