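import Pool.Agent.Run7.h343.NV.Lf
import Pool.Agent.Run7.h343.NV.Wt
import Pool.Agent.Run7.h343.NU.Fin2

/-!
The constants are polynomial in the discriminant and in the infinity type.
-/

set_option autoImplicit false
set_option linter.unusedSectionVars false

open NumberField Complex Filter Topology MeasureTheory Set Asymptotics

namespace Run7.h343.NG.V

open Run7.h343.NF
open Run7.h343.NU (CGU CGU_nonneg Co4 Cpn Cpn_pos VK_one_le VK_sq)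
open Run7.h343.NG.U (B4 B4_pos Co4_le sqrt_VK)
open Pool.Agent.Y773 (PIdl gen qt Reps LI)

attribute [local instance] decEm

variable {K : Type} [Field K] [NumberField K]

/-- the constant -/
noncomputable def B7 (n : ℕ) : ℝ := (B4 n + ((1 + Real.exp Real.pi) * 2 ^ n) ^ 2) * (1 + Cpn n) ^ (3 * n + 3)

lemma B7_pos (n : ℕ) : 0 < B7 n := by
  unfold B7
  have h1 := B4_pos n
  have h2 := Cpn_pos n
  positivity

lemma Co6_le (n : ℕ) {CG : ℝ} (h : 0 ≤ CG) {R : ℝ} (hR : 1 ≤ R) :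
    Co6 n CG R ≤ (B4 n + ((1 + Real.exp Real.pi) * 2 ^ n) ^ 2) * (1 + CG) ^ (3 * n + 3) * R ^ (2 * n) := by
  unfold Co6
  have h1 := Co4_le n h
  obtain ⟨x, hx⟩ : ∃ x, x = 1 + CG := ⟨_, rfl⟩
  have hx1 : 1 ≤ x := by rw [hx]; linarith
  have hCG : CG ≤ x := by rw [hx]; linarith
  rw [← hx] at h1 ⊢
  have h2 : x ^ 2 ≤ x ^ (3 * n + 3) := pow_le_pow_right₀ hx1 (by omega)
  have hR2 : 1 ≤ R ^ (2 * n) := one_le_pow₀ hR
  have hB4 := B4_pos n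
  obtain ⟨e, he⟩ : ∃ e, e = 1 + Real.exp Real.pi := ⟨_, rfl⟩
  have he0 : 0 < e := by rw [he]; positivity
  rw [← he]
  have h3 : (e * (2 * R) ^ n * CG) ^ 2 ≤ (e * 2 ^ n) ^ 2 * x ^ (3 * n + 3) * R ^ (2 * n) := by
    calc (e * (2 * R) ^ n * CG) ^ 2 = (e * 2 ^ n) ^ 2 * CG ^ 2 * R ^ (2 * n) := by
          rw [mul_pow 2 R n]
          ring
      _ ≤ (e * 2 ^ n) ^ 2 * x ^ 2 * R ^ (2 * n) := by gcongr
      _ ≤ _ := by gcongr
  have h4 : B4 n * x ^ (3 * n + 3) ≤ B4 n * x ^ (3 * n + 3) * R ^ (2 * n) :=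
    le_mul_of_one_le_right (by positivity) hR2
  calc _ ≤ B4 n * x ^ (3 * n + 3) * R ^ (2 * n) + (e * 2 ^ n) ^ 2 * x ^ (3 * n + 3) * R ^ (2 * n) :=
        add_le_add (h1.trans h4) h3
    _ = _ := by ring

lemma Co6_CGU {R : ℝ} (hR : 1 ≤ R) : Co6 (Fintype.card (K →+* ℂ)) (CGU K) R ≤
    B7 (Fintype.card (K →+* ℂ)) * VK K ^ (3 * Fintype.card (K →+* ℂ) + 3) * R ^ (2 * Fintype.card (K →+* ℂ)) := by
  obtain ⟨n, hn⟩ : ∃ n, n = Fintype.card (K →+* ℂ) := ⟨_, rfl⟩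
  rw [← hn]
  refine (Co6_le n (CGU_nonneg (K := K)) hR).trans ?_
  have h1 : 1 + CGU K ≤ (1 + Cpn n) * VK K := by
    unfold CGU
    rw [← hn]
    have := VK_one_le (K := K)
    linarith
  have h2 := CGU_nonneg (K := K)
  have h3 := B4_pos n
  unfold B7
  calc _ ≤ (B4 n + ((1 + Real.exp Real.pi) * 2 ^ n) ^ 2) * ((1 + Cpn n) * VK K) ^ (3 * n + 3) * R ^ (2 * n) := by
        gcongr
    _ = _ := by rw [mul_pow (1 + Cpn n)]; ring

/-- the size of the infinity type -/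
noncomputable def Tk (κ : InfinitePlace K → ℤ) : ℝ := 1 + ∑ w : InfinitePlace K, |(κ w : ℝ)|

lemma mq_abs (κ : InfinitePlace K → ℤ) (w : InfinitePlace K) : (mq κ w : ℝ) = |(κ w : ℝ)| := by
  unfold mq
  rw [Nat.cast_natAbs, Int.cast_abs]

lemma Tk_one_le (κ : InfinitePlace K → ℤ) : 1 ≤ Tk κ := by
  unfold Tk
  have : 0 ≤ ∑ w : InfinitePlace K, |(κ w : ℝ)| := Finset.sum_nonneg fun w _ => abs_nonneg _
  linarith

lemma mq_le (κ : InfinitePlace K → ℤ) (w : InfinitePlace K) : 1 + (mq κ w : ℝ) ≤ Tk κ := by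
  rw [mq_abs]
  unfold Tk
  have : |(κ w : ℝ)| ≤ ∑ w : InfinitePlace K, |(κ w : ℝ)| :=
    Finset.single_le_sum (fun w _ => abs_nonneg (κ w : ℝ)) (Finset.mem_univ w)
  linarith

lemma Rk_le (κ : InfinitePlace K → ℤ) : Rk κ ≤ Tk κ := by
  have h1 := Rk_one_le κ
  have h2 : Rk κ ≤ Rk κ ^ 2 := by nlinarith
  refine h2.trans ?_
  rw [Rk_sq]
  unfold Tk
  have h3 : ∑ w : InfinitePlace K, rk κ w ^ 2 ≤ ∑ w : InfinitePlace K, |(κ w : ℝ)| := by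
    refine Finset.sum_le_sum fun w _ => ?_
    rw [rk_sq, mq_abs]
    have hm : w.mult ≤ 2 := by
      unfold InfinitePlace.mult
      split_ifs <;> norm_num
    have hm' : (w.mult : ℝ) ≤ 2 := by exact_mod_cast hm
    rw [div_le_iff₀ (by have := Real.pi_pos; positivity)]
    have hπ := Real.pi_gt_three
    have := abs_nonneg (κ w : ℝ)
    nlinarith
  linarith

/-- the archimedean constants -/
lemma arch_le (κ : InfinitePlace K → ℤ) : cB (mq κ) * cm K (mq κ) * Kg κ ≤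
    (9 * Tk κ ^ 2) ^ Fintype.card (K →+* ℂ) := by
  have e1 : cB (mq κ) * cm K (mq κ) * Kg κ = ∏ w : InfinitePlace K, NV.Qw w.mult (mq κ w) := by
    have e2 : Real.exp (Real.pi * Zk κ) = ∏ w : InfinitePlace K, Real.exp ((mq κ w : ℝ) / 2) := by
      rw [← Real.exp_sum]
      congr 1
      unfold Zk
      rw [Finset.mul_sum]
      refine Finset.sum_congr rfl fun w _ => ?_
      rw [rk_sq]
      have h1 : (0 : ℝ) < w.mult := by exact_mod_cast w.mult_pos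
      have := Real.pi_pos
      field_simp
    unfold Kg Kh cB cm
    rw [e2, ← Finset.prod_mul_distrib, ← Finset.prod_mul_distrib, ← Finset.prod_mul_distrib]
    refine Finset.prod_congr rfl fun w _ => ?_
    unfold NV.Qw rk aw
    ring
  rw [e1]
  have hT := Tk_one_le κ
  have hcard := card_places_le (K := K)
  calc ∏ w : InfinitePlace K, NV.Qw w.mult (mq κ w) ≤ ∏ _w : InfinitePlace K, (9 * Tk κ ^ 2) := by
        refine Finset.prod_le_prod (fun w _ => ?_) fun w _ => ?_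
        · unfold NV.Qw
          have hG : 0 ≤ (Real.Gamma ((w.mult : ℝ) / 4 + (mq κ w : ℝ) / 2))⁻¹ := by
            have h1 : (0 : ℝ) < w.mult := by exact_mod_cast w.mult_pos
            exact (inv_pos.2 (Real.Gamma_pos_of_pos (by positivity))).le
          have := Real.pi_pos
          positivity
        · have hm : w.mult = 1 ∨ w.mult = 2 := by
            unfold InfinitePlace.mult
            split_ifs
            · exact Or.inl rfl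
            · exact Or.inr rfl
          refine (NV.Qw_le hm (mq κ w)).trans ?_
          have h2 := mq_le κ w
          have h3 : (0 : ℝ) ≤ mq κ w := Nat.cast_nonneg _
          gcongr
    _ = (9 * Tk κ ^ 2) ^ Fintype.card (InfinitePlace K) := by rw [Finset.prod_const, Finset.card_univ]
    _ ≤ _ := by
        refine pow_le_pow_right₀ ?_ hcard
        nlinarith

/-- the constant -/
noncomputable def B8 (n : ℕ) : ℝ :=
  8 * Real.exp (5 * n) * 4 ^ (2 * n + 1) * (4 + n) * Real.sqrt (B7 n) * 9 ^ n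

lemma B8_pos (n : ℕ) : 0 < B8 n := by
  unfold B8
  have h1 := B7_pos n
  positivity

theorem Cmv_le (κ : InfinitePlace K → ℤ) {ε : ℝ} (hε : 0 < ε) :
    Cmv κ ε ≤ B8 (Fintype.card (K →+* ℂ)) * (1 + 2 / ε) ^ 2 *
      |(discr K : ℝ)| ^ (3 * (Fintype.card (K →+* ℂ) + 2 : ℝ) / 4) * Tk κ ^ (3 * Fintype.card (K →+* ℂ)) := by
  obtain ⟨n, hn⟩ : ∃ n, n = Fintype.card (K →+* ℂ) := ⟨_, rfl⟩
  have hR1 := Rk_one_le κ
  have hco := Co6_CGU (K := K) hR1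
  have harch := arch_le κ
  have hVK := VK_pos (K := K)
  have hKg := Kg_pos κ
  have hcB := cB_pos (mq κ)
  have hcm := cm_pos (mq κ)
  have hB7 := B7_pos n
  have hT := Tk_one_le κ
  unfold Cmv C1v Cth B8
  rw [← hn] at hco harch ⊢
  obtain ⟨b, hb⟩ : ∃ b, b = B7 n := ⟨_, rfl⟩
  rw [← hb] at hco hB7 ⊢
  have h1 : VK K ^ 2 * Real.sqrt (Kg κ ^ 2 * Co6 n (CGU K) (Rk κ) / VK K) ≤
      Kg κ * Real.sqrt b * Rk κ ^ n * |(discr K : ℝ)| ^ (3 * (n + 2 : ℝ) / 4) := by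
    have e1 : (3 * (n + 2 : ℝ) / 4) = ((3 * n + 6 : ℕ) : ℝ) / 4 := by push_cast; ring
    rw [e1, ← sqrt_VK]
    have e2 : VK K ^ 2 = Real.sqrt (VK K ^ 4) := by
      have : VK K ^ 4 = (VK K ^ 2) ^ 2 := by ring
      rw [this, Real.sqrt_sq (by positivity)]
    have e3 : Kg κ = Real.sqrt (Kg κ ^ 2) := (Real.sqrt_sq hKg.le).symm
    have e4 : Rk κ ^ n = Real.sqrt (Rk κ ^ (2 * n)) := by
      have : Rk κ ^ (2 * n) = (Rk κ ^ n) ^ 2 := by ring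
      rw [this, Real.sqrt_sq (by positivity)]
    rw [e2, ← Real.sqrt_mul (by positivity), e4]
    nth_rewrite 2 [e3]
    rw [← Real.sqrt_mul (by positivity), ← Real.sqrt_mul (by positivity), ← Real.sqrt_mul (by positivity)]
    apply Real.sqrt_le_sqrt
    calc VK K ^ 4 * (Kg κ ^ 2 * Co6 n (CGU K) (Rk κ) / VK K) = VK K ^ 3 * Kg κ ^ 2 * Co6 n (CGU K) (Rk κ) := by
          field_simp
      _ ≤ VK K ^ 3 * Kg κ ^ 2 * (b * VK K ^ (3 * n + 3) * Rk κ ^ (2 * n)) := by gcongr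
      _ = _ := by ring
  obtain ⟨X, hX⟩ : ∃ X, X = Real.sqrt (Kg κ ^ 2 * Co6 n (CGU K) (Rk κ) / VK K) := ⟨_, rfl⟩
  rw [← hX] at h1 ⊢
  obtain ⟨D, hD⟩ : ∃ D, D = |(discr K : ℝ)| ^ (3 * (n + 2 : ℝ) / 4) := ⟨_, rfl⟩
  have hD0 : 0 ≤ D := by rw [hD]; positivity
  rw [← hD] at h1 ⊢
  have hRT : Rk κ ^ n ≤ Tk κ ^ n := pow_le_pow_left₀ (by linarith) (Rk_le κ) n
  calc 8 * Real.exp (5 * n) * VK K ^ 2 * (cB (mq κ) * 4 ^ (2 * n + 1) * cm K (mq κ) * (X * (4 + n) * (1 + 2 / ε) ^ 2)) =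
      (8 * Real.exp (5 * n) * 4 ^ (2 * n + 1) * (4 + n) * (1 + 2 / ε) ^ 2 * (cB (mq κ) * cm K (mq κ))) * (VK K ^ 2 * X) := by
        ring
    _ ≤ (8 * Real.exp (5 * n) * 4 ^ (2 * n + 1) * (4 + n) * (1 + 2 / ε) ^ 2 * (cB (mq κ) * cm K (mq κ))) *
        (Kg κ * Real.sqrt b * Rk κ ^ n * D) := mul_le_mul_of_nonneg_left h1 (by positivity)
    _ = (8 * Real.exp (5 * n) * 4 ^ (2 * n + 1) * (4 + n) * (1 + 2 / ε) ^ 2) * (cB (mq κ) * cm K (mq κ) * Kg κ) *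
        Real.sqrt b * Rk κ ^ n * D := by ring
    _ ≤ (8 * Real.exp (5 * n) * 4 ^ (2 * n + 1) * (4 + n) * (1 + 2 / ε) ^ 2) * ((9 * Tk κ ^ 2) ^ n) *
        Real.sqrt b * Tk κ ^ n * D := by gcongr
    _ = _ := by
        rw [mul_pow 9 (Tk κ ^ 2) n, ← pow_mul]
        ring

/-- **the main theorem**, uniform in all parameters -/
theorem main_v (n : ℕ) {ε : ℝ} (hε : 0 < ε) : ∃ C : ℝ, 0 < C ∧ ∀ (K : Type) [Field K] [NumberField K],
    Module.finrank ℚ K = n → ∀ (κ : InfinitePlace K → ℤ) (p : ℕ) (𝔭 : Ideal (𝓞 K)), P1 p 𝔭 → 7 ≤ p →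
    ∀ 𝔪 : Ideal (𝓞 K), 𝔪 ≠ ⊥ → ¬ 𝔪 ≤ 𝔭 →
    ∀ (ν : ℕ), 1 ≤ ν → ∀ (τ : InfinitePlace K → ℝ) (ψ : Ideal (𝓞 K) →*₀ ℂ), HK 𝔪 𝔭 ν κ τ ψ →
    ∃ L : ℂ → ℂ, Differentiable ℂ L ∧ (∀ s : ℂ, 1 < s.re → L s = LI ψ s) ∧
      ∀ t : ℝ, ‖L (1 / 2 + t * I)‖ ≤ C * |(discr K : ℝ)| ^ (3 * (n + 2 : ℝ) / 4) * (Ideal.absNorm 𝔪 : ℝ) ^ 2 *
        (p : ℝ) ^ (n + 4) * (1 + |t| + ∑ w, |τ w|) ^ (2 * n + 1) * (1 + ∑ w : InfinitePlace K, |(κ w : ℝ)|) ^ (3 * n) *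
        ((p : ℝ) ^ ν) ^ (19 / 116 + ε) := by
  refine ⟨B8 n * (1 + 2 / ε) ^ 2, by have := B8_pos n; positivity, ?_⟩
  intro K _ _ hK κ p 𝔭 hP hp7 𝔪 h𝔪 h𝔪𝔭 ν hν τ ψ hψ
  obtain ⟨L, h1, h2, h3⟩ := main κ hε p 𝔭 hP hp7 𝔪 h𝔪 h𝔪𝔭 ν hν τ ψ hψ
  refine ⟨L, h1, h2, fun t => (h3 t).trans ?_⟩
  have hcard : Fintype.card (K →+* ℂ) = n := by rw [Pool.Agent.Y773.G.card_emb, hK]
  have h4 := Cmv_le κ hε
  rw [hcard] at h4 ⊢
  have hp0 : (0 : ℝ) < p := by exact_mod_cast hP.hp.pos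
  have hT0 : 0 ≤ 1 + |t| + ∑ w, |τ w| := by
    have : 0 ≤ ∑ w, |τ w| := Finset.sum_nonneg fun w _ => abs_nonneg _
    linarith [abs_nonneg t]
  obtain ⟨X, hX⟩ : ∃ X : ℝ, X = (Ideal.absNorm 𝔪 : ℝ) ^ 2 * (p : ℝ) ^ (n + 4) *
      (1 + |t| + ∑ w, |τ w|) ^ (2 * n + 1) * ((p : ℝ) ^ ν) ^ (19 / 116 + ε) := ⟨_, rfl⟩
  have hX0 : 0 ≤ X := by rw [hX]; positivity
  have h5 := mul_le_mul_of_nonneg_right h4 hX0
  rw [hX] at h5
  have hTk : (1 + ∑ w : InfinitePlace K, |(κ w : ℝ)|) = Tk κ := rfl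
  rw [hTk]
  calc _ = Cmv κ ε * ((Ideal.absNorm 𝔪 : ℝ) ^ 2 * (p : ℝ) ^ (n + 4) *
      (1 + |t| + ∑ w, |τ w|) ^ (2 * n + 1) * ((p : ℝ) ^ ν) ^ (19 / 116 + ε)) := by ring
    _ ≤ _ := h5
    _ = _ := by ring

end Run7.h343.NG.V
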