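import Mathlib

/-!
A lower bound for the Gamma function on vertical lines, uniform in the real part, and the archimedean factor.
-/

set_option autoImplicit false

namespace Run7.h343.NV

open Complex Filter Topology Finset

/-- the auxiliary function -/
noncomputable def Ph (v x : ℝ) : ℝ := v * Real.arctan (v / x) - x / 2 * Real.log (1 + (v / x) ^ 2)

lemma Ph_deriv (v : ℝ) {x : ℝ} (hx : 0 < x) :
    HasDerivAt (Ph v) (-(1 / 2 * Real.log (1 + (v / x) ^ 2))) x := by
  unfold Ph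
  have hx0 : x ≠ 0 := hx.ne'
  have h1 : HasDerivAt (fun x : ℝ => v / x) (-(v / x ^ 2)) x := by
    have h := (hasDerivAt_inv hx0).const_mul v
    have e : (fun x : ℝ => v / x) = fun y => v * y⁻¹ := by
      funext y
      rw [div_eq_mul_inv]
    rw [e]
    exact h.congr_deriv (by ring)
  have h2 : HasDerivAt (fun x : ℝ => 1 + (v / x) ^ 2) (2 * (v / x) * -(v / x ^ 2)) x := by
    have h : HasDerivAt (fun x : ℝ => (v / x) ^ 2) (2 * (v / x) * -(v / x ^ 2)) x :=
      (h1.pow 2).congr_deriv (by push_cast; ring)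
    exact h.const_add 1
  have hpos : 0 < 1 + (v / x) ^ 2 := by positivity
  have h3 := h2.log hpos.ne'
  have h4 := h1.arctan
  have h6 : HasDerivAt (fun x : ℝ => x / 2) (1 / 2) x := (hasDerivAt_id x).div_const 2
  have h5 : HasDerivAt (fun x : ℝ => v * Real.arctan (v / x) - x / 2 * Real.log (1 + (v / x) ^ 2)) _ x :=
    (h4.const_mul v).sub (h6.mul h3)
  refine h5.congr_deriv ?_
  field_simp
  ring

lemma Ph_nonneg (v : ℝ) {x : ℝ} (hx : 0 < x) : 0 ≤ Ph v x := by
  have key : ∀ u : ℝ, 0 ≤ u → 0 ≤ u * Real.arctan u - 1 / 2 * Real.log (1 + u ^ 2) := by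
    intro u hu
    have hd : ∀ y : ℝ, HasDerivAt (fun u : ℝ => u * Real.arctan u - 1 / 2 * Real.log (1 + u ^ 2)) (Real.arctan y) y := by
      intro y
      have hpos : 0 < 1 + y ^ 2 := by positivity
      have h0 : HasDerivAt (fun u : ℝ => u) 1 y := hasDerivAt_id y
      have h1 : HasDerivAt (fun u : ℝ => u * Real.arctan u) _ y := h0.mul (Real.hasDerivAt_arctan y)
      have h2 : HasDerivAt (fun u : ℝ => 1 + u ^ 2) (2 * y) y := by
        have h : HasDerivAt (fun u : ℝ => u ^ 2) (2 * y) y := (hasDerivAt_pow 2 y).congr_deriv (by push_cast; ring)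
        exact h.const_add 1
      have h3 : HasDerivAt (fun u : ℝ => 1 / 2 * Real.log (1 + u ^ 2)) _ y := (h2.log hpos.ne').const_mul (1 / 2)
      have h4 : HasDerivAt (fun u : ℝ => u * Real.arctan u - 1 / 2 * Real.log (1 + u ^ 2)) _ y := h1.sub h3
      refine h4.congr_deriv ?_
      field_simp
      ring
    have hm : MonotoneOn (fun u : ℝ => u * Real.arctan u - 1 / 2 * Real.log (1 + u ^ 2)) (Set.Ici 0) := by
      refine monotoneOn_of_deriv_nonneg (convex_Ici 0) ?_ ?_ ?_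
      · exact fun y _ => (hd y).continuousAt.continuousWithinAt
      · exact fun y _ => (hd y).differentiableAt.differentiableWithinAt
      · intro y hy
        rw [interior_Ici] at hy
        rw [(hd y).deriv]
        exact Real.arctan_nonneg.2 (le_of_lt hy)
    have := hm (Set.mem_Ici.2 le_rfl) (Set.mem_Ici.2 hu) hu
    simpa using this
  have h1 := key (|v| / x) (by positivity)
  have h2 : Ph v x = x * (|v| / x * Real.arctan (|v| / x) - 1 / 2 * Real.log (1 + (|v| / x) ^ 2)) := by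
    unfold Ph
    rw [div_pow, div_pow, sq_abs]
    have h3 : |v| * Real.arctan (|v| / x) = v * Real.arctan (v / x) := by
      rcases abs_choice v with h | h
      · rw [h]
      · rw [h, neg_div, Real.arctan_neg]
        ring
    rw [← h3]
    field_simp
  rw [h2]
  positivity

lemma Ph_step (v : ℝ) {x : ℝ} (hx : 0 < x) :
    1 / 2 * Real.log (1 + (v / (x + 1)) ^ 2) ≤ Ph v x - Ph v (x + 1) := by
  obtain ⟨c, hc⟩ : ∃ c, c = 1 / 2 * Real.log (1 + (v / (x + 1)) ^ 2) := ⟨_, rfl⟩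
  have hd : ∀ y : ℝ, 0 < y → HasDerivAt (fun y => Ph v y + c * y) (-(1 / 2 * Real.log (1 + (v / y) ^ 2)) + c) y := by
    intro y hy
    have h0 : HasDerivAt (fun y : ℝ => c * y) (c * 1) y := (hasDerivAt_id y).const_mul c
    have h1 : HasDerivAt (fun y => Ph v y + c * y) _ y := (Ph_deriv v hy).add h0
    exact h1.congr_deriv (by ring)
  have hm : AntitoneOn (fun y : ℝ => Ph v y + c * y) (Set.Icc x (x + 1)) := by
    refine antitoneOn_of_deriv_nonpos (convex_Icc _ _) ?_ ?_ ?_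
    · exact fun y hy => (hd y (lt_of_lt_of_le hx hy.1)).continuousAt.continuousWithinAt
    · intro y hy
      rw [interior_Icc] at hy
      exact (hd y (hx.trans hy.1)).differentiableAt.differentiableWithinAt
    · intro y hy
      rw [interior_Icc] at hy
      have hy0 : 0 < y := hx.trans hy.1
      rw [(hd y hy0).deriv]
      have h2 : (v / (x + 1)) ^ 2 ≤ (v / y) ^ 2 := by
        rw [div_pow, div_pow]
        exact div_le_div_of_nonneg_left (sq_nonneg v) (by positivity) (pow_le_pow_left₀ hy0.le hy.2.le 2)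
      have h3 : Real.log (1 + (v / (x + 1)) ^ 2) ≤ Real.log (1 + (v / y) ^ 2) :=
        Real.log_le_log (by positivity) (by linarith)
      rw [hc]
      linarith
  have h1 := hm (Set.left_mem_Icc.2 (by linarith)) (Set.right_mem_Icc.2 (by linarith)) (by linarith : x ≤ x + 1)
  simp only at h1
  rw [← hc]
  linarith

lemma Ph_sum (v : ℝ) {a : ℝ} (ha : 0 < a) (N : ℕ) :
    ∑ j ∈ range (N + 1), 1 / 2 * Real.log (1 + (v / (a + j)) ^ 2) ≤
      1 / 2 * Real.log (1 + (v / a) ^ 2) + (Ph v a - Ph v (a + N)) := by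
  induction N with
  | zero => simp
  | succ N ih =>
    rw [sum_range_succ]
    have h1 := Ph_step v (x := a + N) (by positivity)
    have e1 : a + (N : ℝ) + 1 = a + ((N + 1 : ℕ) : ℝ) := by push_cast; ring
    rw [e1] at h1
    linarith

lemma norm_add_mul_I {a : ℝ} (ha : 0 < a) (v : ℝ) : ‖(a + v * I : ℂ)‖ = a * Real.exp (1 / 2 * Real.log (1 + (v / a) ^ 2)) := by
  have h1 : ‖(a + v * I : ℂ)‖ = Real.sqrt (a ^ 2 + v ^ 2) := Complex.norm_add_mul_I a v
  have h2 : Real.exp (1 / 2 * Real.log (1 + (v / a) ^ 2)) = Real.sqrt (1 + (v / a) ^ 2) := by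
    rw [Real.sqrt_eq_rpow, Real.rpow_def_of_pos (by positivity)]
    congr 1
    ring
  rw [h1, h2]
  have h3 : a ^ 2 + v ^ 2 = a ^ 2 * (1 + (v / a) ^ 2) := by field_simp
  rw [h3, Real.sqrt_mul (by positivity), Real.sqrt_sq ha.le]

lemma norm_GammaSeq {a : ℝ} (ha : 0 < a) (v : ℝ) (N : ℕ) (hN : 0 < N) :
    Real.GammaSeq a N * Real.exp (-(1 / 2 * Real.log (1 + (v / a) ^ 2) + Ph v a)) ≤
      ‖Complex.GammaSeq (a + v * I) N‖ := by
  unfold Complex.GammaSeq Real.GammaSeq
  rw [norm_div, norm_mul, norm_prod]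
  have hNr : (0 : ℝ) < N := by exact_mod_cast hN
  have e1 : ‖(N : ℂ) ^ (a + v * I : ℂ)‖ = (N : ℝ) ^ a := by
    rw [← Complex.ofReal_natCast, Complex.norm_cpow_eq_rpow_re_of_pos hNr]
    simp
  have e2 : ‖((N.factorial : ℕ) : ℂ)‖ = N.factorial := by simp
  have e3 : ∀ j ∈ range (N + 1), ‖(a + v * I + (j : ℂ) : ℂ)‖ =
      (a + j) * Real.exp (1 / 2 * Real.log (1 + (v / (a + j)) ^ 2)) := by
    intro j _
    have : (a + v * I + (j : ℂ) : ℂ) = ((a + j : ℝ) : ℂ) + v * I := by push_cast; ring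
    rw [this, norm_add_mul_I (by positivity)]
  rw [e1, e2, prod_congr rfl e3, prod_mul_distrib, ← Real.exp_sum]
  have h1 := Ph_sum v ha N
  have h2 := Ph_nonneg v (x := a + N) (by positivity)
  have hp : 0 < ∏ j ∈ range (N + 1), (a + (j : ℝ)) := prod_pos fun j _ => by positivity
  obtain ⟨E, hE⟩ : ∃ E, E = ∑ j ∈ range (N + 1), 1 / 2 * Real.log (1 + (v / (a + j)) ^ 2) := ⟨_, rfl⟩
  rw [← hE] at h1 ⊢
  have h3 : Real.exp (-(1 / 2 * Real.log (1 + (v / a) ^ 2) + Ph v a)) ≤ Real.exp (-E) :=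
    Real.exp_le_exp.2 (by linarith)
  have h4 : (N : ℝ) ^ a * N.factorial / ((∏ j ∈ range (N + 1), (a + (j : ℝ))) * Real.exp E) =
      (N : ℝ) ^ a * N.factorial / (∏ j ∈ range (N + 1), (a + (j : ℝ))) * Real.exp (-E) := by
    rw [Real.exp_neg]
    field_simp
  rw [h4]
  refine mul_le_mul_of_nonneg_left h3 ?_
  positivity

/-- **lower bound for the Gamma function** -/
theorem norm_Gamma_ge {a : ℝ} (ha : 0 < a) (v : ℝ) :
    Real.Gamma a * Real.exp (-(1 / 2 * Real.log (1 + (v / a) ^ 2) + Ph v a)) ≤ ‖Complex.Gamma (a + v * I)‖ := by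
  have h1 : Tendsto (fun N => Real.GammaSeq a N * Real.exp (-(1 / 2 * Real.log (1 + (v / a) ^ 2) + Ph v a))) atTop
      (𝓝 (Real.Gamma a * Real.exp (-(1 / 2 * Real.log (1 + (v / a) ^ 2) + Ph v a)))) :=
    (Real.GammaSeq_tendsto_Gamma a).mul_const _
  have h2 : Tendsto (fun N => ‖Complex.GammaSeq (a + v * I) N‖) atTop (𝓝 ‖Complex.Gamma (a + v * I)‖) :=
    (Complex.GammaSeq_tendsto_Gamma _).norm
  refine le_of_tendsto_of_tendsto h1 h2 ?_
  filter_upwards [eventually_gt_atTop 0] with N hN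
  exact norm_GammaSeq ha v N hN

lemma norm_cpow_one_add {a : ℝ} (ha : 0 < a) (v : ℝ) :
    ‖(1 + ((v / a : ℝ) : ℂ) * I) ^ (a + v * I : ℂ)‖ = Real.exp (-(Ph v a)) := by
  obtain ⟨σ, hσ⟩ : ∃ σ : ℝ, σ = v / a := ⟨_, rfl⟩
  have hne : (1 + (σ : ℂ) * I) ≠ 0 := by
    intro h
    have := congrArg Complex.re h
    simp at this
  have hv : v = σ * a := by rw [hσ]; field_simp
  rw [← hσ, Complex.cpow_def_of_ne_zero hne, Complex.norm_exp]
  congr 1
  have h1 : (Complex.log (1 + (σ : ℂ) * I)).re = 1 / 2 * Real.log (1 + σ ^ 2) := by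
    rw [Complex.log_re]
    have h2 : ‖(1 + (σ : ℂ) * I)‖ = Real.sqrt (1 + σ ^ 2) := by
      have := Complex.norm_add_mul_I 1 σ
      rw [ofReal_one, one_pow] at this
      exact this
    rw [h2, Real.log_sqrt (by positivity)]
    ring
  have h3 : (Complex.log (1 + (σ : ℂ) * I)).im = Real.arctan σ := by
    rw [Complex.log_im]
    have h4 : 0 < (1 + (σ : ℂ) * I).re := by simp
    rw [Complex.arg_of_re_nonneg h4.le, Real.arctan_eq_arcsin]
    have h2 : ‖(1 + (σ : ℂ) * I)‖ = Real.sqrt (1 + σ ^ 2) := by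
      have := Complex.norm_add_mul_I 1 σ
      rw [ofReal_one, one_pow] at this
      exact this
    rw [h2]
    simp
  rw [Complex.mul_re, h1, h3]
  unfold Ph
  rw [← hσ]
  simp
  ring

/-- **the archimedean factor**, uniform in the exponent -/
theorem arp_u {a : ℝ} (ha : 0 < a) (v : ℝ) :
    ‖(1 + ((v / a : ℝ) : ℂ) * I) ^ (a + v * I : ℂ)‖ * ‖Complex.Gamma (a + v * I)‖⁻¹ ≤
      (Real.Gamma a)⁻¹ * Real.sqrt (1 + (v / a) ^ 2) := by
  have h1 := norm_Gamma_ge ha v
  rw [norm_cpow_one_add ha v]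
  have hG := Real.Gamma_pos_of_pos ha
  have hE := Real.exp_pos (-(1 / 2 * Real.log (1 + (v / a) ^ 2) + Ph v a))
  have h2 : ‖Complex.Gamma (a + v * I)‖⁻¹ ≤
      (Real.Gamma a * Real.exp (-(1 / 2 * Real.log (1 + (v / a) ^ 2) + Ph v a)))⁻¹ :=
    inv_anti₀ (by positivity) h1
  have h3 : Real.exp (1 / 2 * Real.log (1 + (v / a) ^ 2)) = Real.sqrt (1 + (v / a) ^ 2) := by
    rw [Real.sqrt_eq_rpow, Real.rpow_def_of_pos (by positivity)]
    congr 1
    ring
  calc _ ≤ Real.exp (-(Ph v a)) * (Real.Gamma a * Real.exp (-(1 / 2 * Real.log (1 + (v / a) ^ 2) + Ph v a)))⁻¹ :=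
        mul_le_mul_of_nonneg_left h2 (Real.exp_pos _).le
    _ = (Real.Gamma a)⁻¹ * Real.exp (1 / 2 * Real.log (1 + (v / a) ^ 2)) := by
        rw [mul_inv, ← Real.exp_neg, neg_neg, mul_left_comm, ← Real.exp_add]
        congr 2
        ring
    _ = _ := by rw [h3]

end Run7.h343.NV
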