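import Pool.Agent.Run7.h343.NV.Sp

/-!
The theta bound for number fields, uniform in the infinity type.
-/

set_option autoImplicit false
set_option linter.unusedSectionVars false

namespace Run7.h343.NG.V

open Complex Finset NumberField
open Run7.h343.NF
open Run7.h343.NU (Co4 Co4_pos CGU CGU_nonneg)

open Pool.Agent.Y773.G (cj rr mk_cj)

attribute [local instance] decEm

variable {K : Type} [Field K] [NumberField K]

/-- the radii -/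
noncomputable def rk (κ : InfinitePlace K → ℤ) (w : InfinitePlace K) : ℝ :=
  Real.sqrt (mq κ w * w.mult / (2 * Real.pi))

lemma rk_nonneg (κ : InfinitePlace K → ℤ) (w : InfinitePlace K) : 0 ≤ rk κ w := Real.sqrt_nonneg _

lemma rk_sq (κ : InfinitePlace K → ℤ) (w : InfinitePlace K) : rk κ w ^ 2 = mq κ w * w.mult / (2 * Real.pi) := by
  unfold rk
  have := Real.pi_pos
  exact Real.sq_sqrt (by positivity)

lemma rk_zero (κ : InfinitePlace K → ℤ) {w : InfinitePlace K} (h : rk κ w = 0) : mq κ w = 0 := by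
  have h1 := rk_sq κ w
  have hπ := Real.pi_pos
  have hm : (0 : ℝ) < w.mult := by exact_mod_cast w.mult_pos
  rw [h, zero_pow (by norm_num)] at h1
  have h2 : (mq κ w : ℝ) * w.mult = 0 := by
    have := (div_eq_zero_iff.1 h1.symm).resolve_right (by positivity)
    exact this
  have h3 := (mul_eq_zero.1 h2).resolve_right hm.ne'
  exact_mod_cast h3

/-- the exponent -/
noncomputable def Zk (κ : InfinitePlace K → ℤ) : ℝ := ∑ w : InfinitePlace K, rk κ w ^ 2 / w.mult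

/-- the radius -/
noncomputable def Rk (κ : InfinitePlace K → ℤ) : ℝ := Real.sqrt (1 + ∑ w : InfinitePlace K, rk κ w ^ 2)

lemma Rk_sq (κ : InfinitePlace K → ℤ) : Rk κ ^ 2 = 1 + ∑ w : InfinitePlace K, rk κ w ^ 2 := by
  unfold Rk
  have : 0 ≤ ∑ w : InfinitePlace K, rk κ w ^ 2 := sum_nonneg fun w _ => sq_nonneg _
  exact Real.sq_sqrt (by linarith)

lemma Rk_one_le (κ : InfinitePlace K → ℤ) : 1 ≤ Rk κ := by
  unfold Rk
  rw [Real.one_le_sqrt]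
  have : 0 ≤ ∑ w : InfinitePlace K, rk κ w ^ 2 := sum_nonneg fun w _ => sq_nonneg _
  linarith

lemma Rk_zB (κ : InfinitePlace K → ℤ) {b : InfinitePlace K → ℂ} (hb : ∀ w, ‖b w‖ ≤ 1) :
    ‖zB (Bk κ (rk κ) b)‖ ≤ Rk κ := by
  have h1 := zB_Bk κ (rk κ) hb
  refine le_of_sq_le_sq ?_ (by linarith [Rk_one_le κ])
  rw [Rk_sq]
  refine h1.trans ?_
  have h2 : ∑ w : InfinitePlace K, rk κ w ^ 2 / w.mult ≤ ∑ w : InfinitePlace K, rk κ w ^ 2 := by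
    refine sum_le_sum fun w _ => div_le_self (sq_nonneg _) ?_
    exact_mod_cast w.mult_pos
  linarith
where
  le_of_sq_le_sq {x y : ℝ} (h : x ^ 2 ≤ y ^ 2) (hy : 0 ≤ y) : x ≤ y := by
    by_contra hc
    push Not at hc
    nlinarith

lemma Rk_dz (κ : InfinitePlace K → ℤ) (σ : (K →+* ℂ) → ℝ) {b : InfinitePlace K → ℂ} (hb : ∀ w, ‖b w‖ ≤ 1) :
    ‖dz σ (eB σ (Bk κ (rk κ) b))‖ ≤ Rk κ := by
  have h1 := dz_Bk κ σ (rk κ) hb
  by_contra hc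
  push Not at hc
  have h2 := Rk_sq κ
  have h3 := Rk_one_le κ
  nlinarith

/-- the constant of the reduction -/
noncomputable def Kh (κ : InfinitePlace K → ℤ) : ℝ :=
  ∏ w : InfinitePlace K, ((mq κ w).factorial / (2 * Real.pi * rk κ w) ^ (mq κ w) : ℝ)

lemma Kh_pos (κ : InfinitePlace K → ℤ) : 0 < Kh κ := by
  unfold Kh
  refine prod_pos fun w _ => ?_
  have hπ := Real.pi_pos
  have hf : (0 : ℝ) < (mq κ w).factorial := by exact_mod_cast Nat.factorial_pos _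
  refine div_pos hf ?_
  rcases (rk_nonneg κ w).lt_or_eq with h | h
  · positivity
  · rw [rk_zero κ h.symm, pow_zero]
    exact one_pos

/-- the constant of the weights -/
noncomputable def Kg (κ : InfinitePlace K → ℤ) : ℝ := Kh κ * Real.exp (Real.pi * Zk κ)

lemma Kg_pos (κ : InfinitePlace K → ℤ) : 0 < Kg κ := mul_pos (Kh_pos κ) (Real.exp_pos _)

/-- **the theta bound** -/
theorem SP_K (κ : InfinitePlace K → ℤ) : ∀ p : ℕ, p.Prime → 7 ≤ p →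
    ∀ ν : ℕ, 1 ≤ ν → ∀ χ : DirichletCharacter ℂ (p ^ ν), χ.IsPrimitive →
    ∀ (o : K →+* ℂ) (C E : Matrix (K →+* ℂ) (K →+* ℂ) ℤ) (𝔟 𝔠 𝔭 : Ideal (𝓞 K)), IsL C 𝔟 → Chn p o ν (C * E) 𝔠 𝔭 →
    ∀ (y σ : InfinitePlace K → ℝ) (S : ℝ), (∀ w, Real.sqrt (1 + σ w ^ 2) ≤ S) →
    ∀ (Ξ : ((K →+* ℂ) → ℤ) → ℂ) (T : Type) [Fintype T] (r : T → (K →+* ℂ) → ℤ) (u : T → ℂ), Spl Ξ χ o T r E u →
      1 ≤ Fintype.card T → |(E.det : ℝ)| = Fintype.card T →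
      ‖SP Ξ (sc y * LC C) (wσ σ) (lk κ) (mq κ)‖ ^ 2 * |(sc y * LC C).det| ≤
        (Kg κ ^ 2 * Co6 (Fintype.card (K →+* ℂ)) (CGU K) (Rk κ)) * (Fintype.card T : ℝ) ^ 4 * (p : ℝ) ^ (Fintype.card (K →+* ℂ) + 4) * (1 + ν) ^ 2 *
        S ^ Fintype.card (K →+* ℂ) * ((p : ℝ) ^ ν) ^ (19 / 58 : ℝ) *
        min |(sc y * LC C).det|⁻¹ (min 1 |(Aq (sc y * LC C) (wσ σ) o ((p : ℝ) ^ ν)).det|⁻¹) := by
  obtain ⟨G, hG⟩ : ∃ G, G = Co6 (Fintype.card (K →+* ℂ)) (CGU K) (Rk κ) := ⟨_, rfl⟩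
  have hsum : 0 < G := by rw [hG]; exact Co6_pos _ CGU_nonneg _
  have hKh := Kh_pos κ
  intro p hp hp7 ν hν χ hχ o C E 𝔟 𝔠 𝔭 hL h y σ S hS Ξ T _ r u hSpl hT hE
  have hp0 : (0 : ℝ) < p := by exact_mod_cast hp.pos
  have hS0 : 0 ≤ S := (Real.sqrt_nonneg _).trans (hS (Classical.arbitrary _))
  have hne := B_ne hL y
  obtain ⟨D, hD⟩ : ∃ D, D = |(sc y * LC C).det| := ⟨_, rfl⟩
  have hD0 : 0 < D := by rw [hD]; exact abs_pos.2 hne
  obtain ⟨mn, hmn⟩ : ∃ mn, mn = min |(sc y * LC C).det|⁻¹ (min 1 |(Aq (sc y * LC C) (wσ σ) o ((p : ℝ) ^ ν)).det|⁻¹) :=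
    ⟨_, rfl⟩
  have hmn0 : 0 ≤ mn := by
    rw [hmn]
    exact le_min (by positivity) (le_min zero_le_one (by positivity))
  obtain ⟨W, hW⟩ : ∃ W, W = (Fintype.card T : ℝ) ^ 4 * (p : ℝ) ^ (Fintype.card (K →+* ℂ) + 4) *
    (1 + ν) ^ 2 * S ^ Fintype.card (K →+* ℂ) * ((p : ℝ) ^ ν) ^ (19 / 58 : ℝ) * mn := ⟨_, rfl⟩
  have hW0 : 0 ≤ W := by rw [hW]; positivity
  have hWR1 : WR p o (CGU K) ν (AE (sc y * LC C) E) := by
    rw [AE_LC]
    exact NU.Chn_WR h y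
  have hWR2 : WR p o (CGU K) ν (Aq (AE (sc y * LC C) E) (wσ σ) o ((p : ℝ) ^ ν)) := by
    rw [AE_LC]
    exact NU.Chn_WR' hp.pos h y σ
  have hdE : |(AE (sc y * LC C) E).det| = Fintype.card T * |(sc y * LC C).det| := by
    rw [AE_det, hE]
  obtain ⟨X, hX⟩ : ∃ X, X = Real.exp (Real.pi * Zk κ) := ⟨_, rfl⟩
  have hX0 : 0 < X := by rw [hX]; exact Real.exp_pos _
  have h2 : ∀ b : InfinitePlace K → ℂ, (∀ w, ‖b w‖ ≤ 1) → ‖SX Ξ (sc y * LC C) (wσ σ)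
      (fun φ => ∑ w, b w * ((rk κ w : ℂ) * lk κ w φ))‖ ≤ X * Real.sqrt (G * W / D) := by
    intro b hb
    have hz := zB_Bk κ (rk κ) hb
    have hd := dz_Bk κ (wσ σ) (rk κ) hb
    have h3 := SX_bound o CGU_nonneg p hp hp7 ν hν χ hχ _ E (wσ σ) S (NU.IsL_Lb hL y) hWR1 hWR2 (fun φ => hS _) Ξ T r u hSpl hT hdE
      (Bk κ (rk κ) b) (Rk κ) (Zk κ) (Rk_one_le κ) (Rk_zB κ hb) (Rk_dz κ (wσ σ) hb) hz
    rw [← hmn, ← hD, ← hG, ← hX] at h3
    have h6 : Real.sqrt (X ^ 2 * (G * W / D)) = X * Real.sqrt (G * W / D) := by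
      rw [Real.sqrt_mul (by positivity), Real.sqrt_sq hX0.le]
    rw [← h6]
    apply Real.le_sqrt_of_sq_le
    rw [mul_div_assoc', le_div_iff₀ hD0]
    refine h3.trans ?_
    rw [hW]
    exact le_of_eq (by ring)
  have h3 := SP_le hSpl.bd hne (wσ σ) (lk_adm κ) (mq κ) (rk κ) (rk_nonneg κ) (fun w => rk_zero κ) h2
  have h4 := pow_le_pow_left₀ (norm_nonneg _) h3 2
  have h5 : (Real.sqrt (G * W / D)) ^ 2 = G * W / D := Real.sq_sqrt (by positivity)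
  rw [← hmn, ← hD, ← hG]
  have hKg : Kg κ = Kh κ * X := by rw [hX]; rfl
  calc _ ≤ (Kh κ * (X * Real.sqrt (G * W / D))) ^ 2 * D := mul_le_mul_of_nonneg_right h4 hD0.le
    _ = (Kg κ) ^ 2 * G * W := by
        rw [hKg, mul_pow, mul_pow, h5]
        field_simp
    _ = _ := by rw [hW]; ring

end Run7.h343.NG.V
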