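import Pool.Agent.Run7.h343.NV.Kb
import Pool.Agent.Run7.h343.NV.Ga
import Pool.Agent.Run7.h343.NU.Fin

/-!
The final bound with explicit constants, uniform in the infinity type.
-/

set_option autoImplicit false
set_option linter.unusedSectionVars false

open NumberField Complex Filter Topology MeasureTheory Set Asymptotics

namespace Run7.h343.NG.V

open Run7.h343.NF
open Run7.h343.NU (UnfC Co5 Co5_pos CGU CGU_nonneg)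

open Pool.Agent.Y773 (PIdl gen qt Reps LI)
open Pool.Agent.Y773.G (sum_classes)

attribute [local instance] decEm

variable {K : Type} [Field K] [NumberField K]

/-- the constants at the archimedean places -/
noncomputable def cB (m : InfinitePlace K → ℕ) : ℝ := ∏ w : InfinitePlace K,
  (Real.sqrt (w.mult : ℝ) ^ ((w.mult : ℝ) / 2) * (Real.pi ^ (aw m w) * (Real.Gamma (aw m w))⁻¹))

lemma cB_pos (m : InfinitePlace K → ℕ) : 0 < cB m := by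
  unfold cB
  refine Finset.prod_pos fun w _ => ?_
  have h1 : 0 < Real.sqrt (w.mult : ℝ) := Pool.Agent.Y773.G.sqrt_mult_pos w
  have h2 := Real.Gamma_pos_of_pos (aw_pos m w)
  have := Real.pi_pos
  positivity

/-- the choice of the weights -/
theorem exists_weights (m : InfinitePlace K → ℕ) (τ : InfinitePlace K → ℝ) (t : ℝ) : ∃ σ : InfinitePlace K → ℝ,
    (∀ w, Real.sqrt (1 + σ w ^ 2) ≤ 4 * (1 + |t| + ∑ w, |τ w|)) ∧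
    ‖Gi m σ τ (1 / 2 + t * I)‖ ≤ cB m * (4 * (1 + |t| + ∑ w, |τ w|)) ^ Fintype.card (InfinitePlace K) := by
  obtain ⟨σ, hσ⟩ : ∃ σ : InfinitePlace K → ℝ, σ = fun w => (((w.mult : ℝ) * t - τ w) / 2) / aw m w := ⟨_, rfl⟩
  have hS : ∀ w, Real.sqrt (1 + σ w ^ 2) ≤ 4 * (1 + |t| + ∑ w, |τ w|) := by
    intro w
    have h0 : Real.sqrt (1 + σ w ^ 2) ≤ 1 + |σ w| := by
      rw [Real.sqrt_le_left (by positivity)]
      nlinarith [abs_nonneg (σ w), sq_abs (σ w)]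
    refine h0.trans ?_
    have h4 : (w.mult : ℝ) = 1 ∨ (w.mult : ℝ) = 2 := by
      unfold InfinitePlace.mult
      split_ifs
      · left; norm_num
      · right; norm_num
    have ha : (w.mult : ℝ) / 4 ≤ aw m w := by
      unfold aw
      have : (0 : ℝ) ≤ m w := Nat.cast_nonneg _
      linarith
    have ha0 := aw_pos m w
    have h2 : |τ w| ≤ ∑ w, |τ w| := Finset.single_le_sum (fun w _ => abs_nonneg (τ w)) (Finset.mem_univ w)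
    have h3 := abs_nonneg (τ w)
    have h6 : |(w.mult : ℝ) * t - τ w| ≤ (w.mult : ℝ) * |t| + |τ w| := by
      have := abs_sub (w.mult * t) (τ w)
      rwa [abs_mul, Nat.abs_cast] at this
    have h7 : |σ w| ≤ 2 * |t| + 2 * |τ w| := by
      rw [hσ]
      simp only
      rw [abs_div, abs_div, abs_of_pos (by norm_num : (0 : ℝ) < 2), abs_of_pos ha0, div_div, div_le_iff₀ (by positivity)]
      refine h6.trans ?_
      have h8 := mul_le_mul_of_nonneg_left ha (by positivity : 0 ≤ (2 * |t| + 2 * |τ w|) * 2)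
      have h9 := abs_nonneg t
      rcases h4 with h | h
      · rw [h] at h8 ⊢
        linarith
      · rw [h] at h8 ⊢
        linarith
    have h9 := abs_nonneg t
    linarith
  refine ⟨σ, hS, ?_⟩
  obtain ⟨S, hSd⟩ : ∃ S, S = 4 * (1 + |t| + ∑ w, |τ w|) := ⟨_, rfl⟩
  rw [← hSd] at hS ⊢
  unfold Gi cB
  rw [norm_prod, ← Finset.card_univ, ← Finset.prod_const, ← Finset.prod_mul_distrib]
  refine Finset.prod_le_prod (fun w _ => norm_nonneg _) fun w _ => ?_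
  have hm : 0 < Real.sqrt (w.mult : ℝ) := Pool.Agent.Y773.G.sqrt_mult_pos w
  obtain ⟨v, hv⟩ : ∃ v : ℝ, v = ((w.mult : ℝ) * t - τ w) / 2 := ⟨_, rfl⟩
  obtain ⟨a, ha⟩ : ∃ a : ℝ, a = aw m w := ⟨_, rfl⟩
  have ha0 : 0 < a := by rw [ha]; exact aw_pos m w
  have hσw : σ w = v / a := by rw [hσ, hv, ha]
  have e1 : ((w.mult : ℂ) * (1 / 2 + t * I) - I * τ w + m w) / 2 = (a : ℂ) + v * I := by
    rw [hv, ha]
    unfold aw
    push_cast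
    ring
  have e2 : (w.mult : ℂ) * (1 / 2 + t * I) - I * τ w + m w = 2 * ((a : ℂ) + v * I) := by
    rw [← e1]
    ring
  have h2 := NV.arp_u ha0 v
  rw [← hσw] at h2
  rw [norm_mul, norm_mul, e1, e2, norm_inv, Complex.Gammaℝ_def, ← ha]
  have e3 : 2 * ((a : ℂ) + v * I) / 2 = (a : ℂ) + v * I := by ring
  have e4 : -(2 * ((a : ℂ) + v * I)) / 2 = ((-a : ℝ) : ℂ) + (-v : ℝ) * I := by
    push_cast
    ring
  have e5 : ‖((Real.sqrt (w.mult : ℝ) : ℝ) : ℂ) ^ ((w.mult : ℂ) * (1 / 2 + t * I))‖ =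
      Real.sqrt (w.mult : ℝ) ^ ((w.mult : ℝ) / 2) := by
    rw [Complex.norm_cpow_eq_rpow_re_of_pos hm]
    congr 1
    have : ((w.mult : ℂ) * (1 / 2 + t * I)) = (((w.mult : ℝ) / 2 : ℝ) : ℂ) + ((w.mult : ℝ) * t : ℝ) * I := by
      push_cast
      ring
    rw [this, add_re, ofReal_re, re_ofReal_mul, I_re, mul_zero, add_zero]
  have e6 : ‖(Real.pi : ℂ) ^ (((-a : ℝ) : ℂ) + (-v : ℝ) * I)‖ = (Real.pi ^ a)⁻¹ := by
    rw [Complex.norm_cpow_eq_rpow_re_of_pos Real.pi_pos, add_re, ofReal_re, re_ofReal_mul, I_re, mul_zero,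
      add_zero, Real.rpow_neg Real.pi_pos.le]
  rw [e3, e4, norm_mul, e5, e6, mul_inv, inv_inv]
  have hπ := Real.pi_pos
  have hCa : 0 < (Real.Gamma a)⁻¹ := inv_pos.2 (Real.Gamma_pos_of_pos ha0)
  calc Real.sqrt (w.mult : ℝ) ^ ((w.mult : ℝ) / 2) * (‖(1 + σ w * I : ℂ) ^ ((a : ℂ) + v * I)‖ *
        (Real.pi ^ a * ‖Gamma ((a : ℂ) + v * I)‖⁻¹)) =
      Real.sqrt (w.mult : ℝ) ^ ((w.mult : ℝ) / 2) * (Real.pi ^ a *
        (‖(1 + σ w * I : ℂ) ^ ((a : ℂ) + v * I)‖ * ‖Gamma ((a : ℂ) + v * I)‖⁻¹)) := by ring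
    _ ≤ Real.sqrt (w.mult : ℝ) ^ ((w.mult : ℝ) / 2) * (Real.pi ^ a * ((Real.Gamma a)⁻¹ * S)) := by
        have h3 : (Real.Gamma a)⁻¹ * Real.sqrt (1 + σ w ^ 2) ≤ (Real.Gamma a)⁻¹ * S :=
          mul_le_mul_of_nonneg_left (hS w) hCa.le
        have h5 : (Real.Gamma a)⁻¹ * Real.sqrt (1 + (v / a) ^ 2) = (Real.Gamma a)⁻¹ * Real.sqrt (1 + σ w ^ 2) := by
          rw [hσw]
        rw [hσw] at h3 ⊢
        have h4 : ‖(1 + ((v / a : ℝ) : ℂ) * I : ℂ) ^ ((a : ℂ) + v * I)‖ * ‖Gamma ((a : ℂ) + v * I)‖⁻¹ ≤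
            (Real.Gamma a)⁻¹ * S := by
          rw [hσw] at h2
          exact h2.trans h3
        gcongr
    _ = _ := by ring

/-- the constant of the theta bound -/
noncomputable def Cth (κ : InfinitePlace K → ℤ) : ℝ :=
  Kg κ ^ 2 * Co6 (Fintype.card (K →+* ℂ)) (CGU K) (Rk κ)

lemma Cth_pos (κ : InfinitePlace K → ℤ) : 0 < Cth κ := by
  unfold Cth
  have h1 := Kg_pos κ
  have h2 := Co6_pos (Fintype.card (K →+* ℂ)) (CGU_nonneg (K := K)) (Rk κ)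
  positivity

/-- the bound for the Mellin transform -/
theorem mel_bound (κ : InfinitePlace K → ℤ) :
    ∀ (p : ℕ) (𝔪 𝔭 : Ideal (𝓞 K)) (ν : ℕ) (τ : InfinitePlace K → ℝ)
    (ψ : Ideal (𝓞 K) →*₀ ℂ) (𝔟 : Ideal (𝓞 K)) (χ : DirichletCharacter ℂ (p ^ ν)) (o : K →+* ℂ)
    (C E : Matrix (K →+* ℂ) (K →+* ℂ) ℤ) (T : Type) [Fintype T] (r : T → (K →+* ℂ) → ℤ) (u : T → ℂ),
      Dat p 𝔪 𝔭 ν κ τ ψ 𝔟 χ o C E T r u → 7 ≤ p → ∀ (σ : InfinitePlace K → ℝ) (S : ℝ),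
      (∀ w, Real.sqrt (1 + σ w ^ 2) ≤ S) →
      ∀ s : ℂ, s.re = 1 / 2 → ‖mellin (hz κ ψ C σ τ) s‖ ≤ (Ideal.absNorm 𝔪 : ℝ) ^ 2 *
        (Real.sqrt (Cth κ * (p : ℝ) ^ (Fintype.card (K →+* ℂ) + 4) * (1 + ν) ^ 2 *
          S ^ Fintype.card (K →+* ℂ) * ((p : ℝ) ^ ν) ^ (19 / 58 : ℝ) / Vb 𝔟) *
          (4 + Real.log (S ^ Fintype.card (K →+* ℂ) * (p : ℝ) ^ ν))) := by
  obtain ⟨Cθ, hCθd⟩ : ∃ Cθ, Cθ = Cth κ := ⟨_, rfl⟩
  have hCθ : 0 < Cθ := by rw [hCθd]; exact Cth_pos κ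
  have h0 := V.SP_K κ
  intro p 𝔪 𝔭 ν τ ψ 𝔟 χ o C E T _ r u h hp7 σ S hS s hs
  rw [← hCθd]
  obtain ⟨F, hF⟩ : ∃ F : ℝ, F = (Fintype.card T : ℝ) := ⟨_, rfl⟩
  have hF1 : 1 ≤ F := by rw [hF]; exact_mod_cast h.one_le
  have hF0 : 0 < F := by linarith
  have hFm : (Ideal.absNorm 𝔪 : ℝ) = F := by rw [hF, h.card]
  obtain ⟨M, hM⟩ : ∃ M, M = Cθ * (p : ℝ) ^ (Fintype.card (K →+* ℂ) + 4) * (1 + ν) ^ 2 *
          S ^ Fintype.card (K →+* ℂ) * ((p : ℝ) ^ ν) ^ (19 / 58 : ℝ) := ⟨_, rfl⟩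
  have hp0 : (0 : ℝ) < p := by exact_mod_cast h.hP.hp.pos
  have hp1 : (1 : ℝ) ≤ p := by exact_mod_cast h.hP.hp.one_le
  have hS0 : 0 ≤ S := (Real.sqrt_nonneg _).trans (hS (Classical.arbitrary _))
  have hM0 : 0 ≤ M := by rw [hM]; positivity
  have hL := h.isL
  have hV := Vb_pos hL.ne_bot
  have hR1 := Rσ_one_le σ
  have hRS := Rσ_le hS
  have hq1 : 1 ≤ (p : ℝ) ^ ν := one_le_pow₀ hp1
  have hQ1 : 1 ≤ S ^ Fintype.card (K →+* ℂ) * (p : ℝ) ^ ν := by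
    have := hR1.trans hRS
    nlinarith
  have hMF0 : 0 ≤ F ^ 4 * M := by positivity
  have key : ‖mellin (hz κ ψ C σ τ) s‖ ≤ Real.sqrt (F ^ 4 * M / Vb 𝔟) *
      (4 + Real.log (S ^ Fintype.card (K →+* ℂ) * (p : ℝ) ^ ν)) := by
    refine int_half hs (h.mel_conv σ s) hV hQ1 hMF0 fun t ht => ?_
    have htV : 0 < t * Vb 𝔟 := mul_pos ht hV
    have hmin0 : 0 ≤ min (t * Vb 𝔟)⁻¹ (min 1 (S ^ Fintype.card (K →+* ℂ) * (p : ℝ) ^ ν * (t * Vb 𝔟))) :=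
      le_min (by positivity) (le_min zero_le_one (by positivity))
    have h1 : ‖hz κ ψ C σ τ t‖ ≤ Real.sqrt (F ^ 4 * M * (t * Vb 𝔟)⁻¹ *
        min (t * Vb 𝔟)⁻¹ (min 1 (S ^ Fintype.card (K →+* ℂ) * (p : ℝ) ^ ν * (t * Vb 𝔟)))) := by
      refine hz_le σ fun θ => ?_
      apply Real.le_sqrt_of_sq_le
      have h2 := h0 p h.hP.hp hp7 ν h.hν χ h.prim o C E 𝔟 (𝔪 * 𝔟) 𝔭 hL h.chn
        (Pool.Agent.Y773.el K ((2 / Module.finrank ℚ K) * Real.log t, θ)) σ S hS (Ξf κ τ ψ C) T r u h.spl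
        h.one_le h.det
      have hCθ' : Kg κ ^ 2 * Co6 (Fintype.card (K →+* ℂ)) (CGU K) (Rk κ) = Cθ := by rw [hCθd]; rfl
      rw [hCθ'] at h2
      have e5 : Cθ * (Fintype.card T : ℝ) ^ 4 * (p : ℝ) ^ (Fintype.card (K →+* ℂ) + 4) * (1 + ν) ^ 2 *
          S ^ Fintype.card (K →+* ℂ) * ((p : ℝ) ^ ν) ^ (19 / 58 : ℝ) = F ^ 4 * M := by
        rw [hM, hF]
        ring
      rw [Aq_det_inv σ o (by positivity), det_t hL ht, e5] at h2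
      have h3 : min (t * Vb 𝔟)⁻¹ (min 1 (Rσ σ * (p : ℝ) ^ ν * (t * Vb 𝔟))) ≤
          min (t * Vb 𝔟)⁻¹ (min 1 (S ^ Fintype.card (K →+* ℂ) * (p : ℝ) ^ ν * (t * Vb 𝔟))) := by
        refine min_le_min le_rfl (min_le_min le_rfl ?_)
        gcongr
      have h4 := h2.trans (mul_le_mul_of_nonneg_left h3 hMF0)
      rw [← le_div_iff₀ htV] at h4
      refine h4.trans (le_of_eq ?_)
      rw [div_eq_mul_inv]
      ring
    calc _ ≤ (Real.sqrt (F ^ 4 * M * (t * Vb 𝔟)⁻¹ *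
        min (t * Vb 𝔟)⁻¹ (min 1 (S ^ Fintype.card (K →+* ℂ) * (p : ℝ) ^ ν * (t * Vb 𝔟))))) ^ 2 :=
          pow_le_pow_left₀ (norm_nonneg _) h1 2
      _ = _ := Real.sq_sqrt (by positivity)
  rw [← hM, hFm]
  refine key.trans (le_of_eq ?_)
  have e1 : Real.sqrt (F ^ 4 * M / Vb 𝔟) = F ^ 2 * Real.sqrt (M / Vb 𝔟) := by
    have e2 : F ^ 4 * M / Vb 𝔟 = (F ^ 2) ^ 2 * (M / Vb 𝔟) := by ring
    rw [e2, Real.sqrt_mul (by positivity), Real.sqrt_sq (by positivity)]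
  rw [e1]
  ring

/-- the constant for one class, without the constant of the unfolding theorem -/
noncomputable def C1v (κ : InfinitePlace K → ℤ) (ε : ℝ) : ℝ :=
  cB (mq κ) * 4 ^ (2 * Fintype.card (K →+* ℂ) + 1) * cm K (mq κ) *
    (Real.sqrt (Cth κ / VK K) * (4 + Fintype.card (K →+* ℂ)) * (1 + 2 / ε) ^ 2)

lemma C1v_pos (κ : InfinitePlace K → ℤ) {ε : ℝ} (hε : 0 < ε) : 0 < C1v κ ε := by
  unfold C1v
  have hVK := VK_pos (K := K)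
  have hcA := cB_pos (mq κ)
  have hcm := cm_pos (mq κ)
  have hC := Cth_pos κ
  positivity

/-- one ideal class -/
theorem one_class {c0 : ℝ} (hc0 : 0 < c0) (hU : UnfC K c0) (κ : InfinitePlace K → ℤ) {ε : ℝ} (hε : 0 < ε) :
    ∀ (p : ℕ) (𝔪 𝔭 : Ideal (𝓞 K)) (ν : ℕ) (τ : InfinitePlace K → ℝ)
    (ψ : Ideal (𝓞 K) →*₀ ℂ) (𝔟 : Ideal (𝓞 K)) (χ : DirichletCharacter ℂ (p ^ ν)) (o : K →+* ℂ)
    (C E : Matrix (K →+* ℂ) (K →+* ℂ) ℤ) (T : Type) [Fintype T] (r : T → (K →+* ℂ) → ℤ) (u : T → ℂ),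
      Dat p 𝔪 𝔭 ν κ τ ψ 𝔟 χ o C E T r u → 7 ≤ p → ∃ Lc : ℂ → ℂ, Differentiable ℂ Lc ∧
      (∀ s : ℂ, 1 < s.re →
        Lc s = ∑' J : PIdl K, ψ (qt 𝔟 (gen J)) * ((Ideal.absNorm J.1 : ℕ) : ℂ) ^ (-s)) ∧
      ∀ t : ℝ, Real.sqrt (Ideal.absNorm 𝔟 : ℝ) * ‖Lc (1 / 2 + t * I)‖ ≤
        ((Module.finrank ℚ K / 2 * c0)⁻¹ * C1v κ ε) * (Ideal.absNorm 𝔪 : ℝ) ^ 2 * (p : ℝ) ^ (Fintype.card (K →+* ℂ) + 4) *
        (1 + |t| + ∑ w, |τ w|) ^ (2 * Fintype.card (K →+* ℂ) + 1) * ((p : ℝ) ^ ν) ^ (19 / 116 + ε) := by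
  classical
  have hfr : (0 : ℝ) < Module.finrank ℚ K := by exact_mod_cast Module.finrank_pos
  obtain ⟨C0, hC0d⟩ : ∃ C0 : ℝ, C0 = Module.finrank ℚ K / 2 * c0 := ⟨_, rfl⟩
  have hC0 : 0 < C0 := by rw [hC0d]; positivity
  have hpart := U.L_part hc0 hU
  obtain ⟨Cθ, hCθd⟩ : ∃ Cθ, Cθ = Cth κ := ⟨_, rfl⟩
  have hCθ : 0 < Cθ := by rw [hCθd]; exact Cth_pos κ
  have hmel := mel_bound κ
  unfold C1v
  rw [← hC0d] at hpart ⊢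
  rw [← hCθd] at hmel ⊢
  obtain ⟨n, hn⟩ : ∃ n, n = Fintype.card (K →+* ℂ) := ⟨_, rfl⟩
  obtain ⟨r0, hr⟩ : ∃ r, r = Fintype.card (InfinitePlace K) := ⟨_, rfl⟩
  have hrn : r0 ≤ n := by rw [hr, hn]; exact card_places_le
  rw [← hn] at hmel ⊢
  have hVK := VK_pos (K := K)
  have hcA := cB_pos (mq κ)
  have hcm := cm_pos (mq κ)
  intro p 𝔪 𝔭 ν τ ψ 𝔟 χ o C E T _ r u hD hp7
  refine ⟨Lq C0 κ C τ ψ 𝔟 (fun _ => 0), (hpart p 𝔪 𝔭 ν κ τ ψ 𝔟 χ o C E T r u hD _).1,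
    (hpart p 𝔪 𝔭 ν κ τ ψ 𝔟 χ o C E T r u hD _).2, fun t => ?_⟩
  obtain ⟨σ, hσ1, hσ2⟩ := exists_weights (mq κ) τ t
  obtain ⟨T', hT⟩ : ∃ T', T' = 1 + |t| + ∑ w, |τ w| := ⟨_, rfl⟩
  have hT1 : 1 ≤ T' := by
    rw [hT]
    have : 0 ≤ ∑ w, |τ w| := Finset.sum_nonneg fun w _ => abs_nonneg _
    linarith [abs_nonneg t]
  rw [← hT] at hσ1 hσ2 ⊢
  rw [← hr] at hσ2
  have hp0 : (0 : ℝ) < p := by exact_mod_cast hD.hP.hp.pos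
  have hre : (1 / 2 + t * I : ℂ).re = 1 / 2 := by simp
  have e1 : Lq C0 κ C τ ψ 𝔟 (fun _ => 0) = Lq C0 κ C τ ψ 𝔟 σ := by
    refine entire_unique (hpart p 𝔪 𝔭 ν κ τ ψ 𝔟 χ o C E T r u hD _).1
      (hpart p 𝔪 𝔭 ν κ τ ψ 𝔟 χ o C E T r u hD _).1 fun s hs => ?_
    rw [(hpart p 𝔪 𝔭 ν κ τ ψ 𝔟 χ o C E T r u hD _).2 s hs, (hpart p 𝔪 𝔭 ν κ τ ψ 𝔟 χ o C E T r u hD _).2 s hs]
  have h1 := hmel p 𝔪 𝔭 ν τ ψ 𝔟 χ o C E T r u hD hp7 σ (4 * T') hσ1 (1 / 2 + t * I) hre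
  have hNpos : (0 : ℝ) < (Ideal.absNorm 𝔟 : ℝ) := by
    have : Ideal.absNorm 𝔟 ≠ 0 := by rw [Ne, Ideal.absNorm_eq_zero_iff]; exact hD.isL.ne_bot
    exact_mod_cast Nat.pos_of_ne_zero this
  obtain ⟨Nb, hNb⟩ : ∃ Nb : ℝ, Nb = (Ideal.absNorm 𝔟 : ℝ) := ⟨_, rfl⟩
  have hNb0 : 0 < Nb := by rw [hNb]; exact hNpos
  rw [e1, ← hNb]
  unfold Lq
  rw [norm_mul, norm_mul, norm_mul, hD.norm_cu, norm_inv, Complex.norm_real, Real.norm_of_nonneg hC0.le]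
  have h2 := num_est hε hCθ hVK (n := n) (ν := ν) hp7 (S := 4 * T') (by linarith)
  obtain ⟨M, hM⟩ : ∃ M, M = Cθ * (p : ℝ) ^ (n + 4) * (1 + (ν : ℝ)) ^ 2 * (4 * T') ^ n *
    ((p : ℝ) ^ ν) ^ (19 / 58 : ℝ) := ⟨_, rfl⟩
  rw [← hM] at h1 h2
  have hM0 : 0 ≤ M := by rw [hM]; positivity
  obtain ⟨F, hF⟩ : ∃ F : ℝ, F = (Ideal.absNorm 𝔪 : ℝ) := ⟨_, rfl⟩
  have hF0 : 0 ≤ F := by rw [hF]; exact Nat.cast_nonneg _
  rw [← hF] at h1 ⊢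
  have e3 : Real.sqrt Nb * Real.sqrt (M / Vb 𝔟) = Real.sqrt (M / VK K) := by
    rw [← Real.sqrt_mul hNb0.le]
    congr 1
    unfold Vb
    rw [← hNb]
    field_simp
  have h3 : (4 * T') ^ r0 ≤ (4 * T') ^ n := pow_le_pow_right₀ (by linarith) hrn
  obtain ⟨l, hl⟩ : ∃ l, l = 4 + Real.log ((4 * T') ^ n * (p : ℝ) ^ ν) := ⟨_, rfl⟩
  rw [← hl] at h1 h2
  have hl0 : 0 ≤ l := by
    rw [hl]
    have hp1 : (1 : ℝ) ≤ p := by exact_mod_cast hD.hP.hp.one_le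
    have e7 : 1 ≤ (4 * T') ^ n * (p : ℝ) ^ ν := by
      have e8 : 1 ≤ (4 * T') ^ n := one_le_pow₀ (by linarith)
      have e9 : 1 ≤ (p : ℝ) ^ ν := one_le_pow₀ hp1
      nlinarith
    have := Real.log_nonneg e7
    linarith
  calc Real.sqrt Nb * (C0⁻¹ * (‖Gi (mq κ) σ τ (1 / 2 + t * I)‖ * (cm K (mq κ) *
          ‖mellin (hz κ ψ C σ τ) (1 / 2 + t * I)‖))) ≤
        Real.sqrt Nb * (C0⁻¹ * ((cB (mq κ) * (4 * T') ^ r0) * (cm K (mq κ) *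
          (F ^ 2 * (Real.sqrt (M / Vb 𝔟) * l))))) := by
        gcongr
    _ = C0⁻¹ * (cB (mq κ) * (4 * T') ^ r0 * (cm K (mq κ) * (F ^ 2 *
          ((Real.sqrt Nb * Real.sqrt (M / Vb 𝔟)) * l)))) := by ring
    _ = C0⁻¹ * (cB (mq κ) * (4 * T') ^ r0 * (cm K (mq κ) * (F ^ 2 * (Real.sqrt (M / VK K) * l)))) := by rw [e3]
    _ ≤ C0⁻¹ * (cB (mq κ) * (4 * T') ^ n * (cm K (mq κ) * (F ^ 2 *
          (Real.sqrt (Cθ / VK K) * (4 + n) * (1 + 2 / ε) ^ 2 * (p : ℝ) ^ (n + 4) *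
        (4 * T') ^ (n + 1) * ((p : ℝ) ^ ν) ^ (19 / 116 + ε))))) := by
        gcongr
    _ = _ := by
        rw [mul_pow 4 T' n, mul_pow 4 T' (n + 1)]
        ring

/-- the constant of the main theorem -/
noncomputable def Cmv (κ : InfinitePlace K → ℤ) (ε : ℝ) : ℝ :=
  8 * Real.exp (5 * Fintype.card (K →+* ℂ)) * VK K ^ 2 * C1v κ ε

/-- **the main theorem**, with an explicit constant -/
theorem main (κ : InfinitePlace K → ℤ) {ε : ℝ} (hε : 0 < ε) :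
    ∀ (p : ℕ) (𝔭 : Ideal (𝓞 K)), P1 p 𝔭 → 7 ≤ p → ∀ 𝔪 : Ideal (𝓞 K), 𝔪 ≠ ⊥ → ¬ 𝔪 ≤ 𝔭 →
    ∀ (ν : ℕ), 1 ≤ ν → ∀ (τ : InfinitePlace K → ℝ) (ψ : Ideal (𝓞 K) →*₀ ℂ), HK 𝔪 𝔭 ν κ τ ψ →
    ∃ L : ℂ → ℂ, Differentiable ℂ L ∧ (∀ s : ℂ, 1 < s.re → L s = LI ψ s) ∧
      ∀ t : ℝ, ‖L (1 / 2 + t * I)‖ ≤ Cmv κ ε * (Ideal.absNorm 𝔪 : ℝ) ^ 2 * (p : ℝ) ^ (Fintype.card (K →+* ℂ) + 4) *
        (1 + |t| + ∑ w, |τ w|) ^ (2 * Fintype.card (K →+* ℂ) + 1) * ((p : ℝ) ^ ν) ^ (19 / 116 + ε) := by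
  classical
  obtain ⟨c0, hc0, hU⟩ := unfz K
  have hone := one_class hc0 hU κ hε
  have hfr : (0 : ℝ) < Module.finrank ℚ K := by exact_mod_cast Module.finrank_pos
  obtain ⟨C1, hC1d⟩ : ∃ C1 : ℝ, C1 = (Module.finrank ℚ K / 2 * c0)⁻¹ * C1v κ ε := ⟨_, rfl⟩
  rw [← hC1d] at hone
  have hC1v := C1v_pos κ hε
  have hC1 : 0 < C1 := by rw [hC1d]; positivity
  have hCm : (Fintype.card (ClassGroup (𝓞 K)) : ℝ) * C1 ≤ Cmv κ ε := by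
    have h1 := NU.cls_bound hc0 hU
    have hn1 : (1 : ℝ) ≤ Module.finrank ℚ K := by exact_mod_cast Module.finrank_pos
    have e1 : (Fintype.card (K →+* ℂ) : ℝ) = Module.finrank ℚ K := by
      rw [Pool.Agent.Y773.G.card_emb]
    rw [hC1d]
    unfold Cmv
    rw [e1]
    calc (Fintype.card (ClassGroup (𝓞 K)) : ℝ) * ((Module.finrank ℚ K / 2 * c0)⁻¹ * C1v κ ε) ≤
        (c0 * (4 * VK K ^ 2 * Real.exp (5 * Module.finrank ℚ K))) * ((Module.finrank ℚ K / 2 * c0)⁻¹ * C1v κ ε) := by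
          gcongr
      _ = (8 * Real.exp (5 * Module.finrank ℚ K) * VK K ^ 2 * C1v κ ε) * (Module.finrank ℚ K : ℝ)⁻¹ := by
          field_simp
          ring
      _ ≤ (8 * Real.exp (5 * Module.finrank ℚ K) * VK K ^ 2 * C1v κ ε) * 1 := by
          refine mul_le_mul_of_nonneg_left (inv_le_one_of_one_le₀ hn1) ?_
          have := VK_pos (K := K)
          positivity
      _ = _ := mul_one _
  intro p 𝔭 hP hp7 𝔪 h𝔪 h𝔪𝔭 ν hν τ ψ hψ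
  have hmp : IsCoprime 𝔪 𝔭 := by
    obtain ⟨x, hxm, hxp⟩ := Set.not_subset.1 h𝔪𝔭
    rw [Ideal.isCoprime_iff_sup_eq, Ideal.eq_top_iff_one]
    obtain ⟨z, i, hi, hz⟩ := hP.isMax.exists_inv (x := x) hxp
    rw [← hz]
    exact Ideal.add_mem _ (Ideal.mem_sup_left (Ideal.mul_mem_left _ _ hxm)) (Ideal.mem_sup_right hi)
  obtain ⟨𝔟, hreps, hco⟩ := exists_reps (mul_ne_zero h𝔪 hP.ne_bot : 𝔪 * 𝔭 ≠ ⊥)
  obtain ⟨e, he⟩ := exists_idm hP h𝔪𝔭 ν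
  obtain ⟨χ, hprim, hχ⟩ := hψ.exists_chi hP hν he
  have hNpos : ∀ c, (0 : ℝ) < (Ideal.absNorm (𝔟 c) : ℝ) := by
    intro c
    have : Ideal.absNorm (𝔟 c) ≠ 0 := by rw [Ne, Ideal.absNorm_eq_zero_iff]; exact hreps.ne_bot c
    exact_mod_cast Nat.pos_of_ne_zero this
  have hclass : ∀ c, ∃ Lc : ℂ → ℂ, Differentiable ℂ Lc ∧
      (∀ s : ℂ, 1 < s.re →
        Lc s = ∑' J : PIdl K, ψ (qt (𝔟 c) (gen J)) * ((Ideal.absNorm J.1 : ℕ) : ℂ) ^ (-s)) ∧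
      ∀ t : ℝ, Real.sqrt (Ideal.absNorm (𝔟 c) : ℝ) * ‖Lc (1 / 2 + t * I)‖ ≤
        C1 * (Ideal.absNorm 𝔪 : ℝ) ^ 2 * (p : ℝ) ^ (Fintype.card (K →+* ℂ) + 4) *
        (1 + |t| + ∑ w, |τ w|) ^ (2 * Fintype.card (K →+* ℂ) + 1) * ((p : ℝ) ^ ν) ^ (19 / 116 + ε) := by
    intro c
    have hbm : IsCoprime (𝔟 c) 𝔪 := (hco c).of_mul_right_left
    have hbp : IsCoprime (𝔟 c) 𝔭 := (hco c).of_mul_right_right
    obtain ⟨o, C, E, hL, hchn, T, _, r, u, hspl, hcT, hdet⟩ :=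
      exists_spl hP hν h𝔪 (hreps.ne_bot c) hbm hmp hbp hψ he hχ
    have hnb : ‖ψ (𝔟 c)‖ = 1 := by
      refine hψ.norm_one _ (Ideal.isCoprime_iff_sup_eq.1 hbm) fun hle => ?_
      have h1 := Ideal.isCoprime_iff_sup_eq.1 hbp
      rw [sup_eq_right.2 hle] at h1
      exact hP.isPrime.ne_top h1
    have h1le : 1 ≤ Fintype.card T := by
      rw [hcT]
      have : Ideal.absNorm 𝔪 ≠ 0 := by rw [Ne, Ideal.absNorm_eq_zero_iff]; exact h𝔪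
      exact Nat.pos_of_ne_zero this
    exact hone p 𝔪 𝔭 ν τ ψ (𝔟 c) χ o C E T r u
      ⟨hP, hν, hψ, hnb, hprim, hL, hchn, hspl, hcT, hdet, h1le⟩ hp7
  choose Lc hLd hLs hLb using hclass
  refine ⟨fun s => ∑ c, ((Ideal.absNorm (𝔟 c) : ℕ) : ℂ) ^ s * Lc c s, ?_, fun s hs => ?_, fun t => ?_⟩
  · refine Differentiable.fun_sum fun c _ => ?_
    refine Differentiable.mul (Differentiable.const_cpow differentiable_id (Or.inl ?_)) (hLd c)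
    exact_mod_cast (hNpos c).ne'
  · simp only
    rw [← sum_classes hreps hψ.norm_le hs]
    refine Finset.sum_congr rfl fun c _ => ?_
    rw [hLs c s hs]
  · have hre : (1 / 2 + t * I : ℂ).re = 1 / 2 := by simp
    have h1 : ∀ c, ‖((Ideal.absNorm (𝔟 c) : ℕ) : ℂ) ^ (1 / 2 + t * I : ℂ) * Lc c (1 / 2 + t * I)‖ ≤
        C1 * (Ideal.absNorm 𝔪 : ℝ) ^ 2 * (p : ℝ) ^ (Fintype.card (K →+* ℂ) + 4) *
        (1 + |t| + ∑ w, |τ w|) ^ (2 * Fintype.card (K →+* ℂ) + 1) * ((p : ℝ) ^ ν) ^ (19 / 116 + ε) := by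
      intro c
      have e2 : ‖((Ideal.absNorm (𝔟 c) : ℕ) : ℂ) ^ (1 / 2 + t * I : ℂ)‖ = Real.sqrt (Ideal.absNorm (𝔟 c) : ℝ) := by
        rw [← Complex.ofReal_natCast, Complex.norm_cpow_eq_rpow_re_of_pos (hNpos c), hre, Real.sqrt_eq_rpow]
      rw [norm_mul, e2]
      exact hLb c t
    refine (norm_sum_le _ _).trans ((Finset.sum_le_sum fun c _ => h1 c).trans ?_)
    rw [Finset.sum_const, nsmul_eq_mul, Finset.card_univ]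
    have hp0 : (0 : ℝ) < p := by exact_mod_cast hP.hp.pos
    have hT0 : 0 ≤ 1 + |t| + ∑ w, |τ w| := by
      have : 0 ≤ ∑ w, |τ w| := Finset.sum_nonneg fun w _ => abs_nonneg _
      linarith [abs_nonneg t]
    obtain ⟨X, hX⟩ : ∃ X : ℝ, X = (Ideal.absNorm 𝔪 : ℝ) ^ 2 * (p : ℝ) ^ (Fintype.card (K →+* ℂ) + 4) *
        (1 + |t| + ∑ w, |τ w|) ^ (2 * Fintype.card (K →+* ℂ) + 1) * ((p : ℝ) ^ ν) ^ (19 / 116 + ε) := ⟨_, rfl⟩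
    have hX0 : 0 ≤ X := by rw [hX]; positivity
    have h5 := mul_le_mul_of_nonneg_right hCm hX0
    rw [hX] at h5
    calc _ = (Fintype.card (ClassGroup (𝓞 K)) : ℝ) * C1 * ((Ideal.absNorm 𝔪 : ℝ) ^ 2 * (p : ℝ) ^ (Fintype.card (K →+* ℂ) + 4) *
        (1 + |t| + ∑ w, |τ w|) ^ (2 * Fintype.card (K →+* ℂ) + 1) * ((p : ℝ) ^ ν) ^ (19 / 116 + ε)) := by ring
      _ ≤ _ := h5
      _ = _ := by ring

end Run7.h343.NG.V
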