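import Pool.Agent.Run7.h343.NV.Xs

/-!
Polynomial weights with varying radii; the linear forms of the infinity type.
-/

set_option autoImplicit false
set_option linter.unusedSectionVars false

namespace Run7.h343.NG.V

open Complex Finset NumberField
open Run7.h343.NF

section gen

variable {ι J : Type} [Fintype ι] [DecidableEq ι] [Fintype J]

/-- reduction to exponential weights, with radii -/
theorem SP_le {Ξ : (ι → ℤ) → ℂ} (hX : ∀ α, ‖Ξ α‖ ≤ 1)
    {A : Matrix ι ι ℝ} (hA : A.det ≠ 0) (σ : ι → ℝ) {l : J → ι → ℂ} (hl : Adm l) (m : J → ℕ) (ρ : J → ℝ)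
    (hρ : ∀ j, 0 ≤ ρ j) (hρm : ∀ j, ρ j = 0 → m j = 0) {M : ℝ}
    (hM : ∀ b : J → ℂ, (∀ j, ‖b j‖ ≤ 1) → ‖SX Ξ A σ (fun i => ∑ j, b j * ((ρ j : ℂ) * l j i))‖ ≤ M) :
    ‖SP Ξ A σ l m‖ ≤ (∏ j, ((m j).factorial / (2 * Real.pi * ρ j) ^ (m j) : ℝ)) * M := by
  classical
  obtain ⟨W, hW⟩ : ∃ W : ℝ, W = ∏ j, ρ j ^ m j := ⟨_, rfl⟩
  have hW0 : 0 < W := by
    rw [hW]
    refine prod_pos fun j _ => ?_
    rcases (hρ j).lt_or_eq with h | h
    · exact pow_pos h _
    · rw [hρm j h.symm, pow_zero]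
      exact one_pos
  obtain ⟨r, hr⟩ : ∃ r : ℝ, r = ∑ j, ρ j := ⟨_, rfl⟩
  have hr0 : 0 ≤ r := by rw [hr]; exact sum_nonneg fun j _ => hρ j
  have hrj : ∀ j, ρ j ≤ r := fun j => by rw [hr]; exact single_le_sum (fun j _ => hρ j) (mem_univ j)
  have hsum : ∀ α, ∑ j, ‖(ρ j : ℂ) * Lf A l j α‖ ≤ r * ((Fintype.card J * Fintype.card ι : ℝ) * ‖em A α‖) := by
    intro α
    calc ∑ j, ‖(ρ j : ℂ) * Lf A l j α‖ ≤ ∑ j, r * ‖Lf A l j α‖ := by
          refine sum_le_sum fun j _ => ?_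
          rw [norm_mul, Complex.norm_real, Real.norm_of_nonneg (hρ j)]
          exact mul_le_mul_of_nonneg_right (hrj j) (norm_nonneg _)
      _ = r * ∑ j, ‖Lf A l j α‖ := by rw [mul_sum]
      _ ≤ _ := mul_le_mul_of_nonneg_left (sum_Lf (A := A) hl α) hr0
  have key : ‖∑' α, (Ξ α * gb A σ 0 α) * ∏ j, ((ρ j : ℂ) * Lf A l j α) ^ (m j)‖ ≤
      (∏ j, ((m j).factorial / (2 * Real.pi) ^ (m j) : ℝ)) * M := by
    refine coef_bound univ (fun j α => (ρ j : ℂ) * Lf A l j α) m _ M ?_ fun b hb => ?_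
    · refine Summable.of_nonneg_of_le (fun α => by positivity) (fun α => ?_)
        ((ga_summable (s2i_det hA) 0).mul_left (Real.exp (((2 * Real.pi + 1) * (r *
          (Fintype.card J * Fintype.card ι : ℝ))) ^ 2 / (2 * Real.pi))))
      refine le_trans ?_ (exp_ga_half ((2 * Real.pi + 1) * (r * (Fintype.card J * Fintype.card ι : ℝ))) A α)
      rw [mul_comm]
      refine mul_le_mul ?_ (c_le hX A σ α) (norm_nonneg _) (Real.exp_pos _).le
      apply Real.exp_le_exp.2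
      have hπ := Real.pi_pos
      have := mul_le_mul_of_nonneg_left (hsum α) (by positivity : 0 ≤ 2 * Real.pi + 1)
      linarith
    · refine le_trans (le_of_eq ?_) (hM b hb)
      unfold SX
      congr 1
      refine tsum_congr fun α => ?_
      rw [mul_assoc]
      congr 1
      unfold gb Lf
      rw [← Complex.exp_add]
      congr 1
      have e1 : ∑ j, b j * ((ρ j : ℂ) * ∑ i, l j i * (em A α i : ℂ)) =
          ∑ i, (∑ j, b j * ((ρ j : ℂ) * l j i)) * (em A α i : ℂ) := by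
        simp_rw [mul_sum, sum_mul]
        rw [sum_comm]
        refine sum_congr rfl fun i _ => sum_congr rfl fun j _ => by ring
      rw [e1, mul_sum, ← sum_add_distrib]
      refine sum_congr rfl fun i _ => ?_
      rw [Pi.zero_apply]
      ring
  have e2 : ∑' α, (Ξ α * gb A σ 0 α) * ∏ j, ((ρ j : ℂ) * Lf A l j α) ^ (m j) = (W : ℂ) * SP Ξ A σ l m := by
    unfold SP sp
    rw [← tsum_mul_left]
    refine tsum_congr fun α => ?_
    rw [hW]
    push_cast
    simp_rw [mul_pow]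
    rw [prod_mul_distrib]
    ring
  rw [e2, norm_mul, Complex.norm_real, Real.norm_of_nonneg hW0.le] at key
  have e3 : (∏ j, ((m j).factorial / (2 * Real.pi) ^ (m j) : ℝ)) =
      W * ∏ j, ((m j).factorial / (2 * Real.pi * ρ j) ^ (m j) : ℝ) := by
    rw [hW, ← prod_mul_distrib]
    refine prod_congr rfl fun j _ => ?_
    rcases (hρ j).lt_or_eq with h | h
    · have hπ := Real.pi_pos
      rw [mul_pow (2 * Real.pi)]
      field_simp
    · rw [hρm j h.symm]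
      simp
  rw [e3, mul_assoc] at key
  exact le_of_mul_le_mul_left key hW0

end gen

open Pool.Agent.Y773.G (cj rr mk_cj cj_cj sum_emb)

attribute [local instance] decEm

variable {K : Type} [Field K] [NumberField K]

/-- the linear term of the weights -/
noncomputable def Bk (κ : InfinitePlace K → ℤ) (ρ : InfinitePlace K → ℝ) (b : InfinitePlace K → ℂ) (φ : K →+* ℂ) : ℂ :=
  ∑ w, b w * ((ρ w : ℂ) * lk κ w φ)

lemma Bk_eq (κ : InfinitePlace K → ℤ) (ρ : InfinitePlace K → ℝ) (b : InfinitePlace K → ℂ) (φ : K →+* ℂ) :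
    Bk κ ρ b φ = b (InfinitePlace.mk φ) * ((ρ (InfinitePlace.mk φ) : ℂ) * lk κ (InfinitePlace.mk φ) φ) := by
  unfold Bk
  rw [sum_eq_single (InfinitePlace.mk φ)]
  · intro w _ hw
    rw [lk_place hw.symm, mul_zero, mul_zero]
  · intro h
    exact absurd (mem_univ _) h

lemma sk_cases (κ : InfinitePlace K → ℤ) (w : InfinitePlace K) : sk κ w = 1 ∨ sk κ w = -1 := by
  unfold sk
  split_ifs
  · exact Or.inl rfl
  · exact Or.inr rfl

lemma lk_real {κ : InfinitePlace K → ℤ} {w : InfinitePlace K} (hw : w.IsReal) : lk κ w w.embedding = 1 := by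
  have hc : cj w.embedding = w.embedding := InfinitePlace.conjugate_embedding_eq_of_isReal hw
  unfold lk
  rw [hc, if_pos rfl, if_pos rfl]
  ring

lemma lk_cpl {κ : InfinitePlace K → ℤ} {w : InfinitePlace K} (hw : ¬ w.IsReal) :
    lk κ w w.embedding = (1 + sk κ w * I) / 2 ∧ lk κ w (cj w.embedding) = (1 - sk κ w * I) / 2 := by
  have hne : w.embedding ≠ cj w.embedding := by
    intro h
    apply hw
    rw [InfinitePlace.isReal_iff]
    exact h.symm
  unfold lk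
  constructor
  · rw [if_pos rfl, if_neg hne, add_zero]
  · rw [if_neg hne.symm, if_pos rfl, zero_add]

/-- the centre of the weights -/
theorem zB_Bk (κ : InfinitePlace K → ℤ) (ρ : InfinitePlace K → ℝ) {b : InfinitePlace K → ℂ} (hb : ∀ w, ‖b w‖ ≤ 1) :
    ‖zB (Bk κ ρ b)‖ ^ 2 ≤ ∑ w : InfinitePlace K, ρ w ^ 2 / w.mult := by
  classical
  rw [EuclideanSpace.norm_sq_eq]
  have hz : ∀ φ : K →+* ℂ, ‖(zB (Bk κ ρ b)) φ‖ ^ 2 = (Bk κ ρ b φ).re ^ 2 := by
    intro φ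
    have : (zB (Bk κ ρ b)) φ = (Bk κ ρ b φ).re := rfl
    rw [this, Real.norm_eq_abs, sq_abs]
  simp_rw [hz]
  rw [sum_emb]
  refine sum_le_sum fun w _ => ?_
  have hbw := hb w
  have hb2 : (b w).re ^ 2 + (b w).im ^ 2 ≤ 1 := by
    have h1 : ‖b w‖ ^ 2 = (b w).re ^ 2 + (b w).im ^ 2 := by
      rw [Complex.sq_norm, Complex.normSq_apply]
      ring
    rw [← h1]
    exact pow_le_one₀ (norm_nonneg _) hbw
  split_ifs with hw
  · rw [Bk_eq, InfinitePlace.mk_embedding, lk_real hw, mul_one]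
    have hm : w.mult = 1 := by unfold InfinitePlace.mult; rw [if_pos hw]
    rw [hm, Nat.cast_one, div_one]
    have e1 : (b w * (ρ w : ℂ)).re = ρ w * (b w).re := by
      rw [mul_comm, re_ofReal_mul]
    rw [e1, mul_pow]
    have : (b w).re ^ 2 ≤ 1 := by nlinarith [sq_nonneg (b w).im]
    exact mul_le_of_le_one_right (sq_nonneg _) this
  · obtain ⟨l1, l2⟩ := lk_cpl (κ := κ) hw
    have hm : w.mult = 2 := by unfold InfinitePlace.mult; rw [if_neg hw]
    rw [Bk_eq, Bk_eq, mk_cj, InfinitePlace.mk_embedding, l1, l2, hm]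
    obtain ⟨s, hs⟩ : ∃ s, s = sk κ w := ⟨_, rfl⟩
    have hs2 : s ^ 2 = 1 := by
      rw [hs]
      rcases sk_cases κ w with h | h <;> rw [h] <;> norm_num
    rw [← hs]
    obtain ⟨x, hx⟩ : ∃ x, x = (b w).re := ⟨_, rfl⟩
    obtain ⟨y, hy⟩ : ∃ y, y = (b w).im := ⟨_, rfl⟩
    have hbxy : b w = x + y * I := by rw [hx, hy]; exact (Complex.re_add_im _).symm
    have hI : I ^ 2 = -1 := I_sq
    have e1 : b w * ((ρ w : ℂ) * ((1 + s * I) / 2)) = ((ρ w * (x - s * y) / 2 : ℝ) : ℂ) + ((ρ w * (y + s * x) / 2 : ℝ) : ℂ) * I := by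
      rw [hbxy]
      push_cast
      linear_combination (ρ w * s * y / 2 : ℂ) * hI
    have e2 : b w * ((ρ w : ℂ) * ((1 - s * I) / 2)) = ((ρ w * (x + s * y) / 2 : ℝ) : ℂ) + ((ρ w * (y - s * x) / 2 : ℝ) : ℂ) * I := by
      rw [hbxy]
      push_cast
      linear_combination (-(ρ w * s * y / 2) : ℂ) * hI
    rw [e1, e2, add_re, add_re, ofReal_re, ofReal_re, re_ofReal_mul, re_ofReal_mul, I_re, mul_zero, mul_zero, add_zero,
      add_zero]
    rw [← hx, ← hy] at hb2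
    have e3 : (ρ w * (x - s * y) / 2) ^ 2 + (ρ w * (x + s * y) / 2) ^ 2 = ρ w ^ 2 * (x ^ 2 + s ^ 2 * y ^ 2) / 2 := by ring
    rw [e3, hs2, one_mul]
    have := mul_le_mul_of_nonneg_left hb2 (sq_nonneg (ρ w))
    push_cast
    linarith

/-- the dual centre of the weights -/
theorem dz_Bk (κ : InfinitePlace K → ℤ) (σ : (K →+* ℂ) → ℝ) (ρ : InfinitePlace K → ℝ) {b : InfinitePlace K → ℂ}
    (hb : ∀ w, ‖b w‖ ≤ 1) : ‖dz σ (eB σ (Bk κ ρ b))‖ ^ 2 ≤ ∑ w : InfinitePlace K, ρ w ^ 2 := by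
  classical
  rw [EuclideanSpace.norm_sq_eq]
  have hz : ∀ φ : K →+* ℂ, ‖(dz σ (eB σ (Bk κ ρ b))) φ‖ ^ 2 ≤ ‖Bk κ ρ b φ‖ ^ 2 := by
    intro φ
    have h1 : (dz σ (eB σ (Bk κ ρ b))) φ = (Real.sqrt (1 + σ φ ^ 2))⁻¹ * ((Bk κ ρ b φ).im - σ φ * (Bk κ ρ b φ).re) := rfl
    have h2 : ‖Bk κ ρ b φ‖ ^ 2 = (Bk κ ρ b φ).re ^ 2 + (Bk κ ρ b φ).im ^ 2 := by
      rw [Complex.sq_norm, Complex.normSq_apply]
      ring
    rw [h1, h2, Real.norm_eq_abs, sq_abs, mul_pow, inv_pow, Real.sq_sqrt (by positivity), inv_mul_le_iff₀ (by positivity)]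
    nlinarith [sq_nonneg ((Bk κ ρ b φ).re + σ φ * (Bk κ ρ b φ).im)]
  refine (sum_le_sum fun φ _ => hz φ).trans ?_
  rw [sum_emb]
  refine sum_le_sum fun w _ => ?_
  have hbw := hb w
  have hb1 : ‖b w‖ ^ 2 ≤ 1 := pow_le_one₀ (norm_nonneg _) hbw
  split_ifs with hw
  · rw [Bk_eq, InfinitePlace.mk_embedding, lk_real hw, mul_one, norm_mul, mul_pow, Complex.norm_real, Real.norm_eq_abs,
      sq_abs]
    exact mul_le_of_le_one_left (sq_nonneg _) hb1
  · obtain ⟨l1, l2⟩ := lk_cpl (κ := κ) hw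
    rw [Bk_eq, Bk_eq, mk_cj, InfinitePlace.mk_embedding, l1, l2]
    have hs2 : sk κ w ^ 2 = 1 := by
      rcases sk_cases κ w with h | h <;> rw [h] <;> norm_num
    have e1 : ‖((1 + sk κ w * I) / 2 : ℂ)‖ ^ 2 = 1 / 2 := by
      rw [norm_div, div_pow, Complex.sq_norm, Complex.normSq_apply]
      simp
      nlinarith
    have e2 : ‖((1 - sk κ w * I) / 2 : ℂ)‖ ^ 2 = 1 / 2 := by
      rw [norm_div, div_pow, Complex.sq_norm, Complex.normSq_apply]
      simp
      nlinarith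
    rw [norm_mul, norm_mul, norm_mul, norm_mul, mul_pow, mul_pow, mul_pow, mul_pow, e1, e2, Complex.norm_real,
      Real.norm_eq_abs, sq_abs]
    have := mul_le_mul_of_nonneg_left hb1 (sq_nonneg (ρ w))
    linarith

end Run7.h343.NG.V
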