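import Pool.Agent.Run7.h343.NU.Kb

/-!
The weighted theta series with a large linear term.
-/

set_option autoImplicit false
set_option linter.unusedSectionVars false

namespace Run7.h343.NG.V

open Complex Finset
open Run7.h343.NF
open Run7.h343.NU (Co4 Co4_pos)

variable {ι : Type} [Fintype ι] [DecidableEq ι]

lemma kB_eq (σ : ι → ℝ) (B : ι → ℂ) : ‖kB σ B‖ = Real.exp (Real.pi * ‖zB B‖ ^ 2) := by
  unfold kB
  rw [Complex.norm_exp]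
  congr 1
  rw [EuclideanSpace.norm_sq_eq, Complex.re_sum, mul_sum]
  refine sum_congr rfl fun i _ => ?_
  have hz : (zB B) i = (B i).re := rfl
  rw [hz, Real.norm_eq_abs, sq_abs]
  have e : (Real.pi * (1 + σ i * I) * ((B i).re : ℂ) ^ 2 : ℂ) =
      ((Real.pi * (B i).re ^ 2 : ℝ) : ℂ) + ((Real.pi * σ i * (B i).re ^ 2 : ℝ) : ℂ) * I := by
    push_cast; ring
  rw [e, add_re, ofReal_re, re_ofReal_mul, I_re, mul_zero, add_zero]

/-- splitting a shifted Gaussian -/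
lemma ga_split {R : ℝ} (hR : 1 ≤ R) (A : Matrix ι ι ℝ) {z : EuclideanSpace ℝ ι} (hz : ‖z‖ ≤ R) (α : ι → ℤ) :
    ga (em A) z α ≤ ga (em ((2 : ℝ)⁻¹ • A)) 0 α + Real.exp Real.pi * ga (em ((2 * R)⁻¹ • A)) 0 α := by
  have hR0 : 0 < R := by linarith
  have h1 := ga_nonneg (em ((2 : ℝ)⁻¹ • A)) 0 α
  have h2 := ga_nonneg (em ((2 * R)⁻¹ • A)) 0 α
  have hE := Real.exp_pos Real.pi
  have hπ := Real.pi_pos
  obtain ⟨x, hx⟩ : ∃ x, x = ‖em A α‖ := ⟨_, rfl⟩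
  have hx0 : 0 ≤ x := by rw [hx]; exact norm_nonneg _
  rcases le_or_gt x (2 * R) with h | h
  · have h3 : ga (em A) z α ≤ 1 := by
      unfold ga
      rw [← Real.exp_zero]
      apply Real.exp_le_exp.2
      have : 0 ≤ Real.pi * ‖em A α - z‖ ^ 2 := by positivity
      linarith
    have h4 : 1 ≤ Real.exp Real.pi * ga (em ((2 * R)⁻¹ • A)) 0 α := by
      unfold ga
      rw [← Real.exp_add, em_smul, sub_zero, norm_smul, ← hx, norm_inv, Real.norm_of_nonneg (by positivity)]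
      apply Real.one_le_exp
      have h5 : ((2 * R)⁻¹ * x) ^ 2 ≤ 1 := by
        rw [← div_eq_inv_mul]
        have : x / (2 * R) ≤ 1 := by rw [div_le_one (by positivity)]; exact h
        exact pow_le_one₀ (by positivity) this
      nlinarith
    linarith
  · have h3 : ga (em A) z α ≤ ga (em ((2 : ℝ)⁻¹ • A)) 0 α := by
      unfold ga
      apply Real.exp_le_exp.2
      rw [em_smul, sub_zero, norm_smul, ← hx, norm_inv]
      have h5 : ‖(2 : ℝ)‖ = 2 := by norm_num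
      rw [h5]
      have h6 : 2⁻¹ * x ≤ ‖em A α - z‖ := by
        have := norm_sub_norm_le (em A α) z
        rw [← hx] at this
        linarith
      have h7 := pow_le_pow_left₀ (by positivity) h6 2
      have := mul_le_mul_of_nonneg_left h7 hπ.le
      linarith
    have : 0 ≤ Real.exp Real.pi * ga (em ((2 * R)⁻¹ • A)) 0 α := by positivity
    linarith

lemma two_det {A : Matrix ι ι ℝ} (hA : A.det ≠ 0) {R : ℝ} (hR : 1 ≤ R) :
    ((2 : ℝ)⁻¹ • A).det ≠ 0 ∧ ((2 * R)⁻¹ • A).det ≠ 0 :=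
  ⟨smul_det_ne hA (by norm_num), smul_det_ne hA (inv_ne_zero (by positivity))⟩

/-- sums over non-zero vectors along an injection -/
lemma tsum_inj_le {A : Matrix ι ι ℝ} (hA : A.det ≠ 0) {R : ℝ} (hR : 1 ≤ R) {z : EuclideanSpace ℝ ι} (hz : ‖z‖ ≤ R)
    {g : (ι → ℤ) → (ι → ℤ)} (hg : Function.Injective g) {F : (ι → ℤ) → ℂ}
    (hF : ∀ β, ‖F β‖ ≤ if g β = 0 then 0 else ga (em A) z (g β)) :
    ‖∑' β, F β‖ ≤ nz ((2 : ℝ)⁻¹ • A) + Real.exp Real.pi * nz ((2 * R)⁻¹ • A) := by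
  obtain ⟨d1, d2⟩ := two_det hA hR
  have hE := Real.exp_pos Real.pi
  have hs := (nz_summable d1).add ((nz_summable d2).mul_left (Real.exp Real.pi))
  have h1 : ∀ β, ‖F β‖ ≤ (fun x : ι → ℤ => (if x = 0 then 0 else ga (em ((2 : ℝ)⁻¹ • A)) 0 x) +
      Real.exp Real.pi * (if x = 0 then 0 else ga (em ((2 * R)⁻¹ • A)) 0 x)) (g β) := by
    intro β
    refine (hF β).trans ?_
    simp only
    split_ifs
    · simp
    · exact ga_split hR A hz _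
  refine (tsum_of_norm_bounded (hs.comp_injective hg).hasSum h1).trans ?_
  unfold nz
  rw [← tsum_mul_left, ← (nz_summable d1).tsum_add ((nz_summable d2).mul_left (Real.exp Real.pi))]
  refine _root_.tsum_comp_le_tsum_of_inj hs (fun x => ?_) hg
  have h2 := ga_nonneg (em ((2 : ℝ)⁻¹ • A)) 0 x
  have h3 := ga_nonneg (em ((2 * R)⁻¹ • A)) 0 x
  split_ifs
  · simp
  · positivity

/-- the trivial bound -/
lemma Th_triv {q : ℕ} (χ : DirichletCharacter ℂ q) (o : ι) {A : Matrix ι ι ℝ} (hA : A.det ≠ 0) (σ : ι → ℝ)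
    {R : ℝ} (hR : 1 ≤ R) {z : EuclideanSpace ℝ ι} (hz : ‖z‖ ≤ R) (η : ι → ℝ) (hχ : χ 0 = 0) :
    ‖Th χ o A σ z η‖ ≤ nz ((2 : ℝ)⁻¹ • A) + Real.exp Real.pi * nz ((2 * R)⁻¹ • A) := by
  unfold Th
  refine tsum_inj_le hA hR hz (g := fun x => x) Function.injective_id fun α => ?_
  split_ifs with h
  · rw [h]
    simp [hχ]
  · exact chi_le χ o A σ z η α

/-- the trivial bound for a class -/
lemma Th_piece {q : ℕ} (χ : DirichletCharacter ℂ q) (o : ι)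
    {A : Matrix ι ι ℝ} (hA : A.det ≠ 0) (σ : ι → ℝ) {R : ℝ} (hR : 1 ≤ R) {z : EuclideanSpace ℝ ι} (hz : ‖z‖ ≤ R)
    (η : ι → ℝ) {E : Matrix ι ι ℤ}
    (hE : Function.Injective E.mulVec) {α : ι → ℤ}
    (hα : ∀ β : ι → ℤ, α + E.mulVec β = 0 → χ ((β o : ℤ) : ZMod q) = 0) :
    ‖Th χ o (AE A E) σ (z - em A α) η‖ ≤ nz ((2 : ℝ)⁻¹ • A) + Real.exp Real.pi * nz ((2 * R)⁻¹ • A) := by
  unfold Th
  refine tsum_inj_le hA hR hz (g := fun β => α + E.mulVec β) ?_ fun β => ?_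
  · intro β β' h
    simp only [add_right_inj] at h
    exact hE h
  · by_cases h0 : α + E.mulVec β = 0
    · rw [if_pos h0, hα β h0, zero_mul, norm_zero]
    · rw [if_neg h0, norm_mul]
      have h1 := gz_shift A σ z η E α β
      have h2 : ‖gz (AE A E) σ (z - em A α) η β‖ = ga (em A) z (α + E.mulVec β) := by
        rw [← gz_norm A σ z η, h1, norm_mul, uph_norm, one_mul]
      rw [h2]
      exact mul_le_of_le_one_left (ga_nonneg _ _ _) (χ.norm_le_one _)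

lemma nz_two {CG : ℝ} {A : Matrix ι ι ℝ} (hL : Lb CG A) {R : ℝ} (hR : 1 ≤ R) :
    nz ((2 : ℝ)⁻¹ • A) + Real.exp Real.pi * nz ((2 * R)⁻¹ • A) ≤
      (1 + Real.exp Real.pi) * (2 * R) ^ Fintype.card ι * CG * |A.det|⁻¹ := by
  have hdA : 0 < |A.det| := abs_pos.2 hL.det
  have hCG := hL.CG_nonneg
  have hE := Real.exp_pos Real.pi
  have hR0 : 0 < R := by linarith
  have h1 := hL.prim (2 : ℝ)⁻¹ (by norm_num)
  have h2 := hL.prim (2 * R)⁻¹ (by positivity)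
  have h3 : CG / (((2 : ℝ)⁻¹) ^ Fintype.card ι * |A.det|) ≤ (2 * R) ^ Fintype.card ι * CG * |A.det|⁻¹ := by
    rw [inv_pow]
    have : (2 : ℝ) ^ Fintype.card ι ≤ (2 * R) ^ Fintype.card ι := pow_le_pow_left₀ (by norm_num) (by linarith) _
    calc CG / ((2 ^ Fintype.card ι)⁻¹ * |A.det|) = 2 ^ Fintype.card ι * CG * |A.det|⁻¹ := by field_simp
      _ ≤ _ := by gcongr
  have h4 : CG / (((2 * R)⁻¹) ^ Fintype.card ι * |A.det|) = (2 * R) ^ Fintype.card ι * CG * |A.det|⁻¹ := by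
    rw [inv_pow]
    field_simp
  rw [h4] at h2
  have h5 := h1.trans h3
  have h6 := mul_le_mul_of_nonneg_left h2 hE.le
  calc _ ≤ (2 * R) ^ Fintype.card ι * CG * |A.det|⁻¹ + Real.exp Real.pi * ((2 * R) ^ Fintype.card ι * CG * |A.det|⁻¹) :=
        add_le_add h5 h6
    _ = _ := by ring

lemma SX_term {Ξ : (ι → ℤ) → ℂ} (hX : ∀ α, ‖Ξ α‖ ≤ 1)
    (A : Matrix ι ι ℝ) (σ : ι → ℝ) (B : ι → ℂ) (α : ι → ℤ) :
    ‖Ξ α * gb A σ B α‖ ≤ Real.exp (Real.pi * ‖zB B‖ ^ 2) * ga (em A) (zB B) α := by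
  rw [norm_mul, gb_eq, norm_mul, gz_norm, kB_eq]
  have h3 := ga_nonneg (em A) (zB B) α
  calc _ ≤ 1 * (Real.exp (Real.pi * ‖zB B‖ ^ 2) * ga (em A) (zB B) α) := by
        gcongr
        exact hX α
    _ = _ := by ring

lemma SX_summable {Ξ : (ι → ℤ) → ℂ} (hX : ∀ α, ‖Ξ α‖ ≤ 1)
    {A : Matrix ι ι ℝ} (hA : A.det ≠ 0) (σ : ι → ℝ) (B : ι → ℂ) :
    Summable fun α : ι → ℤ => Ξ α * gb A σ B α :=
  Summable.of_norm_bounded ((ga_summable hA (zB B)).mul_left _) fun α => SX_term hX A σ B α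

/-- the pieces -/
lemma SX_le_pieces {q : ℕ} {Ξ : (ι → ℤ) → ℂ} {χ : DirichletCharacter ℂ q} {o : ι} {T : Type} [Fintype T]
    {r : T → ι → ℤ} {E : Matrix ι ι ℤ} {u : T → ℂ} (h : Spl Ξ χ o T r E u)
    {A : Matrix ι ι ℝ} (hA : A.det ≠ 0) (σ : ι → ℝ)
    {B : ι → ℂ} {Z : ℝ} (hZ : ‖zB B‖ ^ 2 ≤ Z) {M : ℝ} (hM0 : 0 ≤ M)
    (hM : ∀ a : T, u a ≠ 0 → ‖Th χ o (AE A E) σ (zB B - em A (r a)) (eB σ B)‖ ≤ M) :
    ‖SX Ξ A σ B‖ ≤ Real.exp (Real.pi * Z) * Fintype.card T * M := by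
  have hs := SX_summable h.bd hA σ B
  unfold SX
  rw [tsum_classes h.bij hs]
  have hone : ∀ a : T, ‖∑' β : ι → ℤ, Ξ (r a + E.mulVec β) * gb A σ B (r a + E.mulVec β)‖ ≤
      Real.exp (Real.pi * Z) * M := by
    intro a
    have e1 : ∀ β : ι → ℤ, Ξ (r a + E.mulVec β) * gb A σ B (r a + E.mulVec β) =
      (u a * (kB σ B * uph A (eB σ B) (r a))) *
        (χ ((β o : ℤ) : ZMod q) * gz (AE A E) σ (zB B - em A (r a)) (eB σ B) β) := by
      intro β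
      rw [h.val, gb_eq, gz_shift]
      ring
    simp_rw [e1]
    rw [tsum_mul_left, norm_mul, norm_mul, norm_mul, uph_norm, mul_one]
    by_cases h0 : u a = 0
    · rw [h0, norm_zero, zero_mul, zero_mul]
      positivity
    have h1 := hM a h0
    have h3 : ‖kB σ B‖ ≤ Real.exp (Real.pi * Z) := by
      rw [kB_eq]
      exact Real.exp_le_exp.2 (mul_le_mul_of_nonneg_left hZ Real.pi_pos.le)
    unfold Th at h1
    calc _ ≤ (1 * Real.exp (Real.pi * Z)) * M := by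
          gcongr
          exact h.le a
      _ = _ := by ring
  refine (norm_sum_le _ _).trans ((sum_le_sum fun a _ => hone a).trans (le_of_eq ?_))
  rw [sum_const, nsmul_eq_mul, card_univ]
  ring

/-- the constant of the weighted theta bound -/
noncomputable def Co6 (n : ℕ) (CG R : ℝ) : ℝ := Co4 n CG + ((1 + Real.exp Real.pi) * (2 * R) ^ n * CG) ^ 2

lemma Co6_pos (n : ℕ) {CG : ℝ} (h : 0 ≤ CG) (R : ℝ) : 0 < Co6 n CG R := by
  unfold Co6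
  have h1 := Co4_pos n h
  positivity

theorem SX_bound (o : ι) {CG : ℝ} (hCG : 0 ≤ CG) : ∀ p : ℕ, p.Prime → 7 ≤ p →
    ∀ ν : ℕ, 1 ≤ ν → ∀ χ : DirichletCharacter ℂ (p ^ ν), χ.IsPrimitive →
    ∀ (A : Matrix ι ι ℝ) (E : Matrix ι ι ℤ) (σ : ι → ℝ) (S : ℝ), Lb CG A → WR p o CG ν (AE A E) →
      WR p o CG ν (Aq (AE A E) σ o ((p : ℝ) ^ ν)) → (∀ i, Real.sqrt (1 + σ i ^ 2) ≤ S) →
      ∀ (Ξ : (ι → ℤ) → ℂ) (T : Type) [Fintype T] (r : T → ι → ℤ) (u : T → ℂ), Spl Ξ χ o T r E u →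
      1 ≤ Fintype.card T → |(AE A E).det| = Fintype.card T * |A.det| →
      ∀ (B : ι → ℂ) (R Z : ℝ), 1 ≤ R → ‖zB B‖ ≤ R → ‖dz σ (eB σ B)‖ ≤ R → ‖zB B‖ ^ 2 ≤ Z →
      ‖SX Ξ A σ B‖ ^ 2 * |A.det| ≤ (Real.exp (Real.pi * Z) ^ 2 * Co6 (Fintype.card ι) CG R) * (Fintype.card T : ℝ) ^ 4 *
        (p : ℝ) ^ (Fintype.card ι + 4) * (1 + ν) ^ 2 * S ^ Fintype.card ι *
        ((p : ℝ) ^ ν) ^ (19 / 58 : ℝ) * min |A.det|⁻¹ (min 1 |(Aq A σ o ((p : ℝ) ^ ν)).det|⁻¹) := by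
  have hall := NU.NT_all o hCG
  obtain ⟨n, hn⟩ : ∃ n, n = Fintype.card ι := ⟨_, rfl⟩
  rw [← hn] at hall ⊢
  obtain ⟨C1, hC1d⟩ : ∃ C1, C1 = Co4 n CG := ⟨_, rfl⟩
  have hC1 : 0 < C1 := by rw [hC1d]; exact Co4_pos n hCG
  rw [← hC1d] at hall
  intro p hp hp7 ν hν χ hχ A E σ S hL hW hW' hσ Ξ T _ r u hS hT1 hdE B R Z hR hz hdz hZ
  obtain ⟨e1, he1⟩ : ∃ e1, e1 = Real.exp (Real.pi * Z) := ⟨_, rfl⟩
  have he10 : 0 < e1 := by rw [he1]; exact Real.exp_pos _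
  obtain ⟨cr, hcr⟩ : ∃ cr, cr = (1 + Real.exp Real.pi) * (2 * R) ^ n * CG := ⟨_, rfl⟩
  have hcr0 : 0 ≤ cr := by rw [hcr]; have := Real.exp_pos Real.pi; positivity
  have hCo : Co6 n CG R = C1 + cr ^ 2 := by rw [hC1d, hcr]; rfl
  rw [← he1, hCo]
  obtain ⟨F, hF⟩ : ∃ F : ℝ, F = (Fintype.card T : ℝ) := ⟨_, rfl⟩
  have hF1 : 1 ≤ F := by rw [hF]; exact_mod_cast hT1
  have hF0 : 0 < F := by linarith
  rw [← hF] at hdE ⊢
  have hp0 : (0 : ℝ) < p := by exact_mod_cast hp.pos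
  have hA := hL.det
  have hAE := hW.det
  obtain ⟨D, hD⟩ : ∃ D, D = |A.det| := ⟨_, rfl⟩
  have hD0 : 0 < D := by rw [hD]; exact abs_pos.2 hA
  rw [← hD] at hdE
  have hAq := Aq_det_ne hA σ o (P := (p : ℝ) ^ ν) (by positivity)
  obtain ⟨D', hD'⟩ : ∃ D', D' = |(Aq A σ o ((p : ℝ) ^ ν)).det| := ⟨_, rfl⟩
  have hD0' : 0 < D' := by rw [hD']; exact abs_pos.2 hAq
  have hdE' : |(Aq (AE A E) σ o ((p : ℝ) ^ ν)).det| = F⁻¹ * D' := by
    rw [hD', Aq_det _ σ o (by positivity), Aq_det _ σ o (by positivity), hdE, ← hD]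
    rw [mul_assoc F, mul_inv F]
    ring
  have hS1 : 1 ≤ S := by
    refine le_trans ?_ (hσ o)
    rw [Real.one_le_sqrt]
    nlinarith [sq_nonneg (σ o)]
  obtain ⟨M0, hM0⟩ : ∃ M0 : ℝ, M0 = (p : ℝ) ^ (n + 4) * (1 + ν) ^ 2 * S ^ n * ((p : ℝ) ^ ν) ^ (19 / 58 : ℝ) := ⟨_, rfl⟩
  have hM00 : 0 ≤ M0 := by rw [hM0]; positivity
  obtain ⟨mn, hmn⟩ : ∃ mn : ℝ, mn = min D⁻¹ (min 1 D'⁻¹) := ⟨_, rfl⟩
  have hmn0 : 0 ≤ mn := by rw [hmn]; exact le_min (by positivity) (le_min zero_le_one (by positivity))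
  obtain ⟨CH, hCH⟩ : ∃ CH : ℝ, CH = cr * F := ⟨_, rfl⟩
  have hCH0 : 0 ≤ CH := by rw [hCH]; positivity
  obtain ⟨M, hM⟩ : ∃ M : ℝ, M = Real.sqrt ((C1 + CH ^ 2) * M0 * mn / D) := ⟨_, rfl⟩
  have hM0' : 0 ≤ M := by rw [hM]; exact Real.sqrt_nonneg _
  have hpiece : ∀ a : T, u a ≠ 0 → ‖Th χ o (AE A E) σ (zB B - em A (r a)) (eB σ B)‖ ≤ M := by
    intro a ha
    have h1 : ‖Th χ o (AE A E) σ (zB B - em A (r a)) (eB σ B)‖ ≤ CH * |(AE A E).det|⁻¹ := by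
      refine (Th_piece χ o hA σ hR hz (eB σ B) (hS.Einj a) (hS.ne ha)).trans ?_
      rw [hdE]
      refine (nz_two hL hR).trans ?_
      rw [← hn, ← hD, ← hcr, hCH]
      apply le_of_eq
      field_simp
    have h2 : ‖Th χ⁻¹ o (Aq (AE A E) σ o ((p : ℝ) ^ ν)) (-σ) (dz σ (eB σ B)) (de σ (zB B - em A (r a)))‖ ≤
        CH * |(Aq (AE A E) σ o ((p : ℝ) ^ ν)).det|⁻¹ := by
      have h0 : χ⁻¹ 0 = 0 := chi_zero hp hν _
      refine (Th_triv χ⁻¹ o hW'.lb.det (-σ) hR hdz _ h0).trans ((nz_two hW'.lb hR).trans ?_)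
      rw [← hn, ← hcr, hCH]
      refine mul_le_mul_of_nonneg_right ?_ (by positivity)
      exact le_mul_of_one_le_right hcr0 hF1
    have h3 := hall p hp hp7 ν hν χ hχ (AE A E) σ (zB B - em A (r a)) (eB σ B) S CH hW hW' hσ hCH0 h1 h2
    unfold NT at h3
    rw [hdE, hdE'] at h3
    have h4 : min (F * D)⁻¹ (min 1 (F⁻¹ * D')⁻¹) ≤ F * mn := by
      rw [hmn, mul_min_of_nonneg _ _ hF0.le, mul_min_of_nonneg _ _ hF0.le]
      refine min_le_min ?_ (min_le_min ?_ ?_)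
      · rw [mul_inv]
        have : F⁻¹ ≤ F := (inv_le_one_of_one_le₀ hF1).trans hF1
        exact mul_le_mul_of_nonneg_right this (by positivity)
      · rw [mul_one]; exact hF1
      · rw [mul_inv, inv_inv]
    have h5 : (C1 + CH ^ 2) * (p : ℝ) ^ (n + 4) * (1 + ν) ^ 2 * S ^ n * ((p : ℝ) ^ ν) ^ (19 / 58 : ℝ) =
        (C1 + CH ^ 2) * M0 := by rw [hM0]; ring
    rw [h5] at h3
    have h6 : 0 ≤ (C1 + CH ^ 2) * M0 := by positivity
    have h7 := h3.trans (mul_le_mul_of_nonneg_left h4 h6)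
    rw [hM]
    apply Real.le_sqrt_of_sq_le
    rw [le_div_iff₀ hD0]
    have h8 : F * (‖Th χ o (AE A E) σ (zB B - em A (r a)) (eB σ B)‖ ^ 2 * D) ≤ F * ((C1 + CH ^ 2) * M0 * mn) := by
      linarith
    exact le_of_mul_le_mul_left h8 hF0
  have h1 := SX_le_pieces hS hA σ hZ hM0' hpiece
  rw [← he1, ← hF] at h1
  have h2 := pow_le_pow_left₀ (norm_nonneg _) h1 2
  have h3 : M ^ 2 = (C1 + CH ^ 2) * M0 * mn / D := by rw [hM]; exact Real.sq_sqrt (by positivity)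
  rw [← hD, ← hD', ← hmn]
  calc ‖SX Ξ A σ B‖ ^ 2 * D ≤ (e1 * F * M) ^ 2 * D := mul_le_mul_of_nonneg_right h2 hD0.le
    _ = e1 ^ 2 * F ^ 2 * (C1 + CH ^ 2) * M0 * mn := by
        rw [mul_pow, mul_pow, h3]
        field_simp
    _ ≤ e1 ^ 2 * F ^ 2 * ((C1 + cr ^ 2) * F ^ 2) * M0 * mn := by
        have h5 : C1 + CH ^ 2 ≤ (C1 + cr ^ 2) * F ^ 2 := by
          rw [hCH, mul_pow _ F 2]
          have : C1 ≤ C1 * F ^ 2 := le_mul_of_one_le_right hC1.le (one_le_pow₀ hF1)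
          linarith
        gcongr
    _ = _ := by
        rw [hM0]
        ring

end Run7.h343.NG.V
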